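import Mathlib

/-!
# Tensor descent for representations: linear algebra

If `R` is a semisimple representation of `G` of dimension `n * m`, `ρ` a representation of dimension `m`
which is absolutely irreducible on a normal subgroup `N`, and `tr R = n tr ρ` on `N`, then
`R ≅ U ⊗ ρ` for a representation `U` of dimension `n` trivial on `N`.
-/

set_option autoImplicit false
set_option linter.unusedSectionVars false

namespace Pool.Agent.Q65.TD

open Module Matrix Polynomial

section defs

variable {G : Type*} [Group G] {k : Type*} [Field k] {ι : Type*} [Fintype ι] [DecidableEq ι]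

/-- the subspace `W` is stable under the matrices `R g` -/
def Stable (R : G →* GL ι k) (W : Submodule k (ι → k)) : Prop :=
  ∀ g : G, ∀ w ∈ W, (R g : Matrix ι ι k).mulVec w ∈ W

/-- The representation `R` is semisimple: every stable subspace has a stable complement. -/
def Semisimple (R : G →* GL ι k) : Prop :=
  ∀ W : Submodule k (ι → k), Stable R W → ∃ W' : Submodule k (ι → k), Stable R W' ∧ IsCompl W W'

/-- `ρ` is absolutely irreducible: its image spans the algebra of all matrices. -/
def AbsIrr (ρ : G →* GL ι k) : Prop :=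
  Submodule.span k (Set.range fun x => (ρ x : Matrix ι ι k)) = ⊤

/-- the extension to the group algebra -/
noncomputable def ex (ρ : G →* GL ι k) : MonoidAlgebra k G →ₐ[k] Matrix ι ι k :=
  MonoidAlgebra.lift k (Matrix ι ι k) G ((Units.coeHom _).comp ρ)

theorem ex_of (ρ : G →* GL ι k) (g : G) :
    ex ρ (MonoidAlgebra.of k G g) = (ρ g : Matrix ι ι k) := by
  unfold ex
  rw [MonoidAlgebra.lift_of]
  rfl

theorem ex_surj {ρ : G →* GL ι k} (h : AbsIrr ρ) : Function.Surjective (ex ρ) := by
  have h1 : (⊤ : Submodule k (Matrix ι ι k)) ≤ LinearMap.range (ex ρ).toLinearMap := by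
    rw [← h, Submodule.span_le]
    rintro _ ⟨x, rfl⟩
    exact ⟨MonoidAlgebra.of k G x, ex_of ρ x⟩
  intro X
  obtain ⟨a, ha⟩ := h1 (Submodule.mem_top : X ∈ ⊤)
  exact ⟨a, ha⟩

theorem Stable.ex {R : G →* GL ι k} {W : Submodule k (ι → k)} (hW : Stable R W)
    (a : MonoidAlgebra k G) : ∀ w ∈ W, (ex R a).mulVec w ∈ W := by
  induction a using MonoidAlgebra.induction_on with
  | of g => intro w hw; rw [ex_of]; exact hW g w hw
  | add x y hx hy =>
    intro w hw
    rw [map_add, Matrix.add_mulVec]
    exact add_mem (hx w hw) (hy w hw)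
  | smul c x hx =>
    intro w hw
    rw [map_smul, Matrix.smul_mulVec]
    exact Submodule.smul_mem _ _ (hx w hw)

end defs

section nil

variable {k : Type*} [Field k] {ι : Type*} [Fintype ι] [DecidableEq ι]

/-- a nonzero idempotent matrix has nonzero trace if `1, ..., n` are invertible -/
theorem idem_trace {e : Matrix ι ι k} (he : e * e = e)
    (hn : ∀ m : ℕ, 1 ≤ m → m ≤ Fintype.card ι → (m : k) ≠ 0) (ht : e.trace = 0) : e = 0 := by
  have hff : IsIdempotentElem (Matrix.toLin' e) := by
    unfold IsIdempotentElem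
    rw [Module.End.mul_eq_comp, ← Matrix.toLin'_mul, he]
  have h1 := (LinearMap.IsIdempotentElem.isProj_range _ hff).trace
  have h2 : LinearMap.trace k (ι → k) (Matrix.toLin' e) = e.trace := by
    rw [Matrix.trace_toLin'_eq]
  rw [h2, ht] at h1
  have h3 : finrank k (LinearMap.range (Matrix.toLin' e)) ≤ Fintype.card ι := by
    have := Submodule.finrank_le (LinearMap.range (Matrix.toLin' e))
    rwa [Module.finrank_fintype_fun_eq_card] at this
  have h4 : finrank k (LinearMap.range (Matrix.toLin' e)) = 0 := by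
    by_contra h
    exact hn _ (Nat.one_le_iff_ne_zero.2 h) h3 h1.symm
  rw [Submodule.finrank_eq_zero, LinearMap.range_eq_bot] at h4
  exact (Matrix.toLin'.map_eq_zero_iff).1 h4

/-- If all products of `y` with polynomials in `y` have trace zero, then `y` is nilpotent. -/
theorem nilpotent_of_trace {y : Matrix ι ι k}
    (hn : ∀ m : ℕ, 1 ≤ m → m ≤ Fintype.card ι → (m : k) ≠ 0)
    (ht : ∀ f : k[X], (aeval y f * y).trace = 0) : IsNilpotent y := by
  have h0 : y.charpoly ≠ 0 := y.charpoly_monic.ne_zero
  obtain ⟨m, hm, hm0⟩ := Polynomial.exists_eq_pow_rootMultiplicity_mul_and_not_dvd y.charpoly h0 0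
  set s := rootMultiplicity 0 y.charpoly with hs
  rw [C_0, sub_zero] at hm hm0
  have hcop : IsCoprime ((X : k[X]) ^ (s + 1)) m :=
    IsCoprime.pow_left ((Polynomial.irreducible_X.coprime_iff_not_dvd).2 hm0)
  obtain ⟨u, v, huv⟩ := hcop
  set e := aeval y (u * X ^ (s + 1)) with he
  have hz : aeval y (X ^ (s + 1) * m) = 0 := by
    have : (X : k[X]) ^ (s + 1) * m = X * y.charpoly := by
      rw [hm, pow_succ]; ring
    rw [this, map_mul, Matrix.aeval_self_charpoly, mul_zero]
  have hid : e * e = e := by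
    have h1 : e * (1 - e) = 0 := by
      have : (1 : Matrix ι ι k) - e = aeval y (v * m) := by
        have h2 : v * m = 1 - u * X ^ (s + 1) := by rw [← huv]; ring
        rw [h2, map_sub, map_one]
      rw [this, he, ← map_mul]
      have h3 : u * X ^ (s + 1) * (v * m) = (u * v) * (X ^ (s + 1) * m) := by ring
      rw [h3, map_mul, hz, mul_zero]
    rw [mul_sub, mul_one, sub_eq_zero] at h1
    exact h1.symm
  have htr : e.trace = 0 := by
    have : e = aeval y (u * X ^ s) * y := by
      rw [he, show u * (X : k[X]) ^ (s + 1) = (u * X ^ s) * X by rw [pow_succ]; ring, map_mul, aeval_X]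
    rw [this]
    exact ht _
  have he0 := idem_trace hid hn htr
  refine ⟨s + 1, ?_⟩
  have h5 : aeval y (u * X ^ (s + 1) + v * m) = 1 := by rw [huv, map_one]
  rw [map_add, ← he, he0, zero_add] at h5
  calc y ^ (s + 1) = aeval y ((X : k[X]) ^ (s + 1)) * 1 := by simp
    _ = aeval y ((X : k[X]) ^ (s + 1)) * aeval y (v * m) := by rw [h5]
    _ = 0 := by
      rw [← map_mul]
      have h3 : (X : k[X]) ^ (s + 1) * (v * m) = v * (X ^ (s + 1) * m) := by ring
      rw [h3, map_mul, hz, mul_zero]

end nil

section kill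

variable {G : Type*} [Group G] {k : Type*} [Field k] {ι κ : Type*} [Fintype ι] [DecidableEq ι]
  [Fintype κ] [DecidableEq κ]

/-- conjugation of the group algebra of a normal subgroup -/
theorem ex_conj (R : G →* GL ι k) (ρ : G →* GL κ k) (N : Subgroup G) [hN : N.Normal] (g : G)
    (a : MonoidAlgebra k N) : ∃ a' : MonoidAlgebra k N,
      ex (R.comp N.subtype) a' = (R g : Matrix ι ι k) * ex (R.comp N.subtype) a *
        (R g⁻¹ : Matrix ι ι k) ∧
      ex (ρ.comp N.subtype) a' = (ρ g : Matrix κ κ k) * ex (ρ.comp N.subtype) a *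
        (ρ g⁻¹ : Matrix κ κ k) := by
  induction a using MonoidAlgebra.induction_on with
  | of x =>
    refine ⟨MonoidAlgebra.of k N ⟨g * x * g⁻¹, hN.conj_mem x.1 x.2 g⟩, ?_, ?_⟩
    · rw [ex_of, ex_of, MonoidHom.comp_apply, MonoidHom.comp_apply]
      show ((R (g * x * g⁻¹) : GL ι k) : Matrix ι ι k) = _
      rw [map_mul, map_mul, Units.val_mul, Units.val_mul]
      rfl
    · rw [ex_of, ex_of, MonoidHom.comp_apply, MonoidHom.comp_apply]
      show ((ρ (g * x * g⁻¹) : GL κ k) : Matrix κ κ k) = _
      rw [map_mul, map_mul, Units.val_mul, Units.val_mul]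
      rfl
  | add x y hx hy =>
    obtain ⟨x', h1, h2⟩ := hx
    obtain ⟨y', h3, h4⟩ := hy
    refine ⟨x' + y', ?_, ?_⟩
    · rw [map_add, map_add, h1, h3, mul_add, add_mul]
    · rw [map_add, map_add, h2, h4, mul_add, add_mul]
  | smul c x hx =>
    obtain ⟨x', h1, h2⟩ := hx
    refine ⟨c • x', ?_, ?_⟩
    · rw [map_smul, map_smul, h1, mul_smul_comm, smul_mul_assoc]
    · rw [map_smul, map_smul, h2, mul_smul_comm, smul_mul_assoc]

/-- **Clifford's theorem with traces**: if `R` is semisimple and `tr R` is a multiple of `tr ρ` on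
the normal subgroup `N`, then every relation between the matrices `ρ x`, `x ∈ N`, holds for the
matrices `R x`. -/
theorem kill {R : G →* GL ι k} (hR : Semisimple R) (ρ : G →* GL κ k) (N : Subgroup G)
    [hN : N.Normal] (hn : ∀ m : ℕ, 1 ≤ m → m ≤ Fintype.card ι → (m : k) ≠ 0) (c : k)
    (htr : ∀ x ∈ N, (R x : Matrix ι ι k).trace = c * (ρ x : Matrix κ κ k).trace)
    (a : MonoidAlgebra k N) (ha : ex (ρ.comp N.subtype) a = 0) : ex (R.comp N.subtype) a = 0 := by
  have htr' : ∀ b : MonoidAlgebra k N, (ex (R.comp N.subtype) b).trace =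
      c * (ex (ρ.comp N.subtype) b).trace := by
    intro b
    induction b using MonoidAlgebra.induction_on with
    | of x => rw [ex_of, ex_of]; exact htr x.1 x.2
    | add x y hx hy => rw [map_add, map_add, trace_add, trace_add, hx, hy, mul_add]
    | smul c x hx =>
      rw [map_smul, map_smul, trace_smul, trace_smul, hx, smul_eq_mul, smul_eq_mul]
      ring
  have hpoly : ∀ (b : MonoidAlgebra k N) (f : k[X]), ex (R.comp N.subtype) (aeval b f) =
      aeval (ex (R.comp N.subtype) b) f := by
    intro b f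
    rw [Polynomial.aeval_algHom_apply]
  have hnil : ∀ b, ex (ρ.comp N.subtype) b = 0 → IsNilpotent (ex (R.comp N.subtype) b) := by
    intro b hb
    apply nilpotent_of_trace hn
    intro f
    rw [← hpoly, ← map_mul, htr', map_mul, hb, mul_zero, trace_zero, mul_zero]
  -- the common kernel
  let W₀ : Submodule k (ι → k) :=
    { carrier := {v | ∀ b, ex (ρ.comp N.subtype) b = 0 → (ex (R.comp N.subtype) b).mulVec v = 0}
      add_mem' := fun {v w} hv hw y hy => by rw [Matrix.mulVec_add, hv y hy, hw y hy, add_zero]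
      zero_mem' := fun y _ => Matrix.mulVec_zero _
      smul_mem' := fun c v hv y hy => by rw [Matrix.mulVec_smul, hv y hy, smul_zero] }
  have hW₀ : Stable R W₀ := by
    intro g v hv b hb
    obtain ⟨b', h1, h2⟩ := ex_conj R ρ N g⁻¹ b
    rw [hb, mul_zero, zero_mul] at h2
    have h3 := hv b' h2
    have h4 : ex (R.comp N.subtype) b * (R g : Matrix ι ι k) =
        (R g : Matrix ι ι k) * ex (R.comp N.subtype) b' := by
      rw [h1, inv_inv, ← mul_assoc, ← mul_assoc, ← Units.val_mul, ← map_mul, mul_inv_cancel, map_one,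
        Units.val_one, one_mul]
    rw [Matrix.mulVec_mulVec, h4, ← Matrix.mulVec_mulVec, h3, Matrix.mulVec_zero]
  obtain ⟨W', hW', hc⟩ := hR W₀ hW₀
  have hW'N : Stable (R.comp N.subtype) W' := fun g w hw => hW' g.1 w hw
  have hbot : W' = ⊥ := by
    by_contra hne
    classical
    have hex : ∃ d : ℕ, ∃ W : Submodule k (ι → k), Stable (R.comp N.subtype) W ∧ W ≤ W' ∧ W ≠ ⊥ ∧
      finrank k W = d := ⟨_, W', hW'N, le_rfl, hne, rfl⟩
    obtain ⟨W, hW, hWW, hWne, hWd⟩ := Nat.find_spec hex
    have hmin : ∀ V : Submodule k (ι → k), Stable (R.comp N.subtype) V → V ≤ W → V ≠ ⊥ → V = W := by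
      intro V hV hVW hVne
      have h1 := Nat.find_min' hex ⟨V, hV, hVW.trans hWW, hVne, rfl⟩
      rw [← hWd] at h1
      exact Submodule.eq_of_le_of_finrank_le hVW h1
    have h2 : ∃ y, ex (ρ.comp N.subtype) y = 0 ∧ ∃ w ∈ W, (ex (R.comp N.subtype) y).mulVec w ≠ 0 := by
      by_contra h
      push Not at h
      apply hWne
      rw [eq_bot_iff, ← hc.inf_eq_bot]
      exact fun w hw => ⟨fun y hy => h y hy w hw, hWW hw⟩
    obtain ⟨y, hy, w, hw, hyw⟩ := h2
    let V : Submodule k (ι → k) :=
      { carrier := {v | ∃ z, ex (ρ.comp N.subtype) z = 0 ∧ (ex (R.comp N.subtype) z).mulVec w = v}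
        add_mem' := by
          rintro _ _ ⟨z, hz, rfl⟩ ⟨z', hz', rfl⟩
          exact ⟨z + z', by rw [map_add, hz, hz', add_zero], by
            rw [map_add]; exact Matrix.add_mulVec _ _ _⟩
        zero_mem' := ⟨0, map_zero _, by rw [map_zero]; exact Matrix.zero_mulVec _⟩
        smul_mem' := by
          rintro c _ ⟨z, hz, rfl⟩
          exact ⟨c • z, by rw [map_smul, hz, smul_zero], by
            rw [map_smul]; exact Matrix.smul_mulVec _ _ _⟩ }
    have hVs : Stable (R.comp N.subtype) V := by
      rintro g _ ⟨z, hz, rfl⟩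
      exact ⟨MonoidAlgebra.of k N g * z, by rw [map_mul, hz, mul_zero], by
        rw [map_mul, ex_of, Matrix.mulVec_mulVec]⟩
    have hVW : V ≤ W := by
      rintro _ ⟨z, hz, rfl⟩
      exact hW.ex z w hw
    have hVne : V ≠ ⊥ := by
      intro h
      apply hyw
      have : (ex (R.comp N.subtype) y).mulVec w ∈ V := ⟨y, hy, rfl⟩
      rw [h] at this
      exact (Submodule.mem_bot k).1 this
    have hVeq := hmin V hVs hVW hVne
    have hwV : w ∈ V := by rw [hVeq]; exact hw
    obtain ⟨z, hz, hzw⟩ := hwV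
    obtain ⟨M, hM⟩ := hnil z hz
    have h3 : ∀ m : ℕ, ((ex (R.comp N.subtype) z) ^ m).mulVec w = w := by
      intro m
      induction m with
      | zero => rw [pow_zero, Matrix.one_mulVec]
      | succ m ih => rw [pow_succ, ← Matrix.mulVec_mulVec, hzw, ih]
    have h4 := h3 M
    rw [hM, Matrix.zero_mulVec] at h4
    apply hyw
    rw [← h4, Matrix.mulVec_zero]
  have htop : W₀ = ⊤ := by
    have := hc.sup_eq_top
    rwa [hbot, sup_bot_eq] at this
  have h5 : ∀ v, (ex (R.comp N.subtype) a).mulVec v = 0 := fun v => by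
    have : v ∈ W₀ := by rw [htop]; trivial
    exact this a ha
  apply Matrix.toLin'.injective
  refine LinearMap.ext fun v => ?_
  rw [Matrix.toLin'_apply, h5, map_zero, LinearMap.zero_apply]

end kill

end Pool.Agent.Q65.TD
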