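import Pool.Agent.Q65.TD.Sko

/-!
# Tensor descent for representations: the descent
-/

set_option autoImplicit false
set_option linter.unusedSectionVars false

namespace Pool.Agent.Q65.TD

open Module Matrix Polynomial
open scoped Kronecker

section descend

variable {G : Type*} [Group G] {k : Type*} [Field k] {n m : ℕ}

theorem trace_ex {ι κ : Type*} [Fintype ι] [DecidableEq ι] [Fintype κ] [DecidableEq κ]
    {R : G →* GL ι k} {ρ : G →* GL κ k} {c : k}
    (htr : ∀ x, (R x : Matrix ι ι k).trace = c * (ρ x : Matrix κ κ k).trace)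
    (b : MonoidAlgebra k G) : (ex R b).trace = c * (ex ρ b).trace := by
  induction b using MonoidAlgebra.induction_on with
  | of x => rw [ex_of, ex_of]; exact htr x
  | add x y hx hy => rw [map_add, map_add, trace_add, trace_add, hx, hy, mul_add]
  | smul c x hx =>
    rw [map_smul, map_smul, trace_smul, trace_smul, hx, smul_eq_mul, smul_eq_mul]
    ring

/-- the matrices `1 ⊗ X` -/
def J (n : ℕ) (X : Matrix (Fin m) (Fin m) k) : Matrix (Fin n × Fin m) (Fin n × Fin m) k :=
  (1 : Matrix (Fin n) (Fin n) k) ⊗ₖ X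

theorem J_mul (X Y : Matrix (Fin m) (Fin m) k) : J n (X * Y) = J n X * J n Y := by
  unfold J
  rw [← Matrix.mul_kronecker_mul, one_mul]

theorem J_one : J n (1 : Matrix (Fin m) (Fin m) k) = 1 := by
  unfold J
  rw [Matrix.one_kronecker_one]

/-- **Tensor descent.** -/
theorem descend (hm : 0 < m) (hn : ∀ j : ℕ, 1 ≤ j → j ≤ n * m → (j : k) ≠ 0)
    (R : G →* GL (Fin n × Fin m) k) (hR : Semisimple R) (ρ : G →* GL (Fin m) k) (N : Subgroup G)
    [hN : N.Normal] (hρ : AbsIrr (ρ.comp N.subtype))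
    (htr : ∀ x ∈ N, (R x : Matrix (Fin n × Fin m) (Fin n × Fin m) k).trace =
      n * (ρ x : Matrix (Fin m) (Fin m) k).trace) :
    ∃ (U : G →* GL (Fin n) k) (P : GL (Fin n × Fin m) k),
      (∀ g, R g = P * kr (U g) (ρ g) * P⁻¹) ∧ ∀ x ∈ N, U x = 1 := by
  classical
  have hn' : ∀ j : ℕ, 1 ≤ j → j ≤ Fintype.card (Fin n × Fin m) → (j : k) ≠ 0 := by
    rw [Fintype.card_prod, Fintype.card_fin, Fintype.card_fin]
    exact hn
  have hs := ex_surj hρ
  set s := Function.surjInv hs with hsdef
  have hsr : ∀ X, ex (ρ.comp N.subtype) (s X) = X := Function.surjInv_eq hs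
  have key : ∀ a b, ex (ρ.comp N.subtype) a = ex (ρ.comp N.subtype) b →
      ex (R.comp N.subtype) a = ex (R.comp N.subtype) b := by
    intro a b hab
    rw [← sub_eq_zero, ← map_sub]
    exact kill hR ρ N hn' n htr _ (by rw [map_sub, hab, sub_self])
  let φ : Matrix (Fin m) (Fin m) k →ₐ[k] Matrix (Fin n × Fin m) (Fin n × Fin m) k :=
    AlgHom.ofLinearMap
    { toFun := fun X => ex (R.comp N.subtype) (s X)
      map_add' := fun X Y => by
        rw [← map_add]
        exact key _ _ (by rw [map_add, hsr, hsr, hsr])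
      map_smul' := fun c X => by
        rw [RingHom.id_apply, ← map_smul]
        exact key _ _ (by rw [map_smul, hsr, hsr]) }
    (by
      have : ex (R.comp N.subtype) (s 1) = ex (R.comp N.subtype) 1 := key _ _ (by rw [hsr, map_one])
      exact this.trans (map_one _))
    (fun X Y => by
      have : ex (R.comp N.subtype) (s (X * Y)) = ex (R.comp N.subtype) (s X * s Y) :=
        key _ _ (by rw [map_mul, hsr, hsr, hsr])
      exact this.trans (map_mul _ _ _))
  have hφ : ∀ a, φ (ex (ρ.comp N.subtype) a) = ex (R.comp N.subtype) a := fun a => by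
    show ex (R.comp N.subtype) (s _) = _
    exact key _ _ (hsr _)
  obtain ⟨P, hP⟩ := skolem hm hn φ (fun X => by
    obtain ⟨a, rfl⟩ := hs X
    rw [hφ]
    exact trace_ex (fun x => htr x.1 x.2) a)
  have hPP : ((P⁻¹ : GL (Fin n × Fin m) k) : Matrix (Fin n × Fin m) (Fin n × Fin m) k) *
      (P : Matrix (Fin n × Fin m) (Fin n × Fin m) k) = 1 := by
    rw [← Units.val_mul, inv_mul_cancel, Units.val_one]
  have hPP' : (P : Matrix (Fin n × Fin m) (Fin n × Fin m) k) *
      ((P⁻¹ : GL (Fin n × Fin m) k) : Matrix (Fin n × Fin m) (Fin n × Fin m) k) = 1 := by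
    rw [← Units.val_mul, mul_inv_cancel, Units.val_one]
  -- conjugated representation
  let R' : G →* GL (Fin n × Fin m) k := (MulAut.conj P⁻¹).toMonoidHom.comp R
  have hR' : ∀ g, R' g = P⁻¹ * R g * P := fun g => by
    show P⁻¹ * R g * P⁻¹⁻¹ = _
    rw [inv_inv]
  have hφP : ∀ X, ((P⁻¹ : GL (Fin n × Fin m) k) : Matrix (Fin n × Fin m) (Fin n × Fin m) k) *
      φ X * (P : Matrix (Fin n × Fin m) (Fin n × Fin m) k) = J n X := by
    intro X
    rw [mul_assoc, hP, ← mul_assoc, hPP, one_mul]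
    rfl
  have hconj : ∀ g X, (R' g : Matrix (Fin n × Fin m) (Fin n × Fin m) k) * J n X =
      J n ((ρ g : Matrix (Fin m) (Fin m) k) * X * (ρ g⁻¹ : Matrix (Fin m) (Fin m) k)) *
        (R' g : Matrix (Fin n × Fin m) (Fin n × Fin m) k) := by
    intro g X
    obtain ⟨a, rfl⟩ := hs X
    obtain ⟨a', h1, h2⟩ := ex_conj R ρ N g a
    rw [← h2, ← hφP, ← hφP, hφ, hφ, h1, hR', Units.val_mul, Units.val_mul]
    have h3 : (R g⁻¹ : Matrix (Fin n × Fin m) (Fin n × Fin m) k) * (R g : Matrix _ _ k) = 1 := by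
      rw [← Units.val_mul, ← map_mul, inv_mul_cancel, map_one, Units.val_one]
    set p : Matrix (Fin n × Fin m) (Fin n × Fin m) k := P.val
    set q : Matrix (Fin n × Fin m) (Fin n × Fin m) k := (P⁻¹ : GL (Fin n × Fin m) k).val
    set r : Matrix (Fin n × Fin m) (Fin n × Fin m) k := (R g).val
    set r' : Matrix (Fin n × Fin m) (Fin n × Fin m) k := (R g⁻¹).val
    set x := ex (R.comp N.subtype) a
    calc q * r * p * (q * x * p) = q * r * (p * q) * x * p := by noncomm_ring
      _ = q * r * x * p := by rw [hPP', mul_one]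
      _ = q * (r * x * (r' * r)) * p := by rw [h3, mul_one]; noncomm_ring
      _ = q * (r * x * r') * (p * q) * r * p := by rw [hPP']; noncomm_ring
      _ = q * (r * x * r') * p * (q * r * p) := by noncomm_ring
  -- the commuting operators
  let T : G → Matrix (Fin n × Fin m) (Fin n × Fin m) k := fun g =>
    J n (ρ g⁻¹ : Matrix (Fin m) (Fin m) k) * (R' g : Matrix (Fin n × Fin m) (Fin n × Fin m) k)
  have hinv : ∀ g, (ρ g⁻¹ : Matrix (Fin m) (Fin m) k) * (ρ g : Matrix (Fin m) (Fin m) k) = 1 := by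
    intro g
    rw [← Units.val_mul, ← map_mul, inv_mul_cancel, map_one, Units.val_one]
  have hinv' : ∀ g, (ρ g : Matrix (Fin m) (Fin m) k) * (ρ g⁻¹ : Matrix (Fin m) (Fin m) k) = 1 := by
    intro g
    rw [← Units.val_mul, ← map_mul, mul_inv_cancel, map_one, Units.val_one]
  have hT : ∀ g X, T g * J n X = J n X * T g := by
    intro g X
    show J n _ * (R' g : Matrix (Fin n × Fin m) (Fin n × Fin m) k) * J n X = J n X * (J n _ * _)
    rw [mul_assoc, hconj, ← mul_assoc, ← J_mul, ← mul_assoc (J n X), ← J_mul]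
    congr 2
    rw [← mul_assoc, ← mul_assoc, hinv, one_mul]
  have hTmul : ∀ g h, T (g * h) = T g * T h := by
    intro g h
    have h1 : T g * T h = (T g * J n (ρ h⁻¹ : Matrix (Fin m) (Fin m) k)) *
        (R' h : Matrix (Fin n × Fin m) (Fin n × Fin m) k) := by
      exact (mul_assoc (T g) (J n (ρ h⁻¹ : Matrix (Fin m) (Fin m) k)) _).symm
    rw [h1, hT]
    show J n (ρ (g * h)⁻¹ : Matrix (Fin m) (Fin m) k) *
        (R' (g * h) : Matrix (Fin n × Fin m) (Fin n × Fin m) k) =
      J n (ρ h⁻¹ : Matrix (Fin m) (Fin m) k) * (J n (ρ g⁻¹ : Matrix (Fin m) (Fin m) k) *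
        (R' g : Matrix (Fin n × Fin m) (Fin n × Fin m) k)) * _
    rw [map_mul R', Units.val_mul, _root_.mul_inv_rev, map_mul ρ, Units.val_mul, J_mul]
    simp only [mul_assoc]
  have hT1 : T 1 = 1 := by
    show J n _ * (R' 1 : Matrix (Fin n × Fin m) (Fin n × Fin m) k) = 1
    rw [inv_one, map_one, map_one, Units.val_one, Units.val_one, J_one, one_mul]
  let u : G → Matrix (Fin n) (Fin n) k := fun g =>
    Matrix.of fun i j => T g (i, ⟨0, hm⟩) (j, ⟨0, hm⟩)
  have hTu : ∀ g, T g = u g ⊗ₖ (1 : Matrix (Fin m) (Fin m) k) := fun g =>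
    comm_kron hm (T g) fun X => hT g X
  have hinj : ∀ A B : Matrix (Fin n) (Fin n) k, A ⊗ₖ (1 : Matrix (Fin m) (Fin m) k) =
      B ⊗ₖ (1 : Matrix (Fin m) (Fin m) k) → A = B := by
    intro A B h
    ext i j
    have h3 := congrFun (congrFun h (i, ⟨0, hm⟩)) (j, ⟨0, hm⟩)
    simpa [Matrix.kroneckerMap_apply] using h3
  let u' : G →* Matrix (Fin n) (Fin n) k :=
    { toFun := u
      map_one' := hinj _ _ (by rw [← hTu, hT1, Matrix.one_kronecker_one])
      map_mul' := fun g h => hinj _ _ (by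
        rw [← hTu, hTmul, hTu, hTu, ← Matrix.mul_kronecker_mul, one_mul]) }
  refine ⟨u'.toHomUnits, P, fun g => ?_, fun x hx => ?_⟩
  · have h1 : (kr (u'.toHomUnits g) (ρ g)) = R' g := by
      apply Units.ext
      rw [kr_val]
      have h2 : ((u'.toHomUnits g : GL (Fin n) k) : Matrix (Fin n) (Fin n) k) = u g := rfl
      rw [h2]
      have h3 : u g ⊗ₖ (ρ g : Matrix (Fin m) (Fin m) k) = T g * J n (ρ g : Matrix (Fin m) (Fin m) k) := by
        rw [hTu]
        unfold J
        rw [← Matrix.mul_kronecker_mul, one_mul, mul_one]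
      rw [h3, hT]
      show J n _ * (J n _ * _) = _
      rw [← mul_assoc, ← J_mul, hinv', J_one, one_mul]
    rw [h1, hR']
    group
  · apply Units.ext
    have h2 : ((u'.toHomUnits x : GL (Fin n) k) : Matrix (Fin n) (Fin n) k) = u x := rfl
    rw [h2, Units.val_one]
    apply hinj
    rw [← hTu, Matrix.one_kronecker_one]
    show J n _ * (R' x : Matrix (Fin n × Fin m) (Fin n × Fin m) k) = 1
    have h3 : (R' x : Matrix (Fin n × Fin m) (Fin n × Fin m) k) =
        J n (ρ x : Matrix (Fin m) (Fin m) k) := by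
      have h4 : ex (R.comp N.subtype) (MonoidAlgebra.of k N ⟨x, hx⟩) = (R x : Matrix _ _ k) :=
        ex_of _ _
      have h5 : ex (ρ.comp N.subtype) (MonoidAlgebra.of k N ⟨x, hx⟩) = (ρ x : Matrix _ _ k) :=
        ex_of _ _
      rw [hR', Units.val_mul, Units.val_mul, ← h4, ← hφ, hφP, h5]
    rw [h3, ← J_mul, hinv, J_one]

/-- cancellation of the trace of a representation which is absolutely irreducible on a subgroup -/
theorem cancel (hm : 0 < m) (ρ : G →* GL (Fin m) k) (N : Subgroup G)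
    (hρ : AbsIrr (ρ.comp N.subtype)) (g : G) (t : k)
    (h : ∀ x ∈ N, t * (ρ (g * x) : Matrix (Fin m) (Fin m) k).trace = 0) : t = 0 := by
  by_contra ht
  have h1 : ∀ X : Matrix (Fin m) (Fin m) k,
      ((ρ g : Matrix (Fin m) (Fin m) k) * X).trace = (0 * X : Matrix (Fin m) (Fin m) k).trace := by
    intro X
    have hX : X ∈ Submodule.span k (Set.range fun x : N =>
        ((ρ.comp N.subtype) x : Matrix (Fin m) (Fin m) k)) := hρ ▸ Submodule.mem_top
    induction hX using Submodule.span_induction with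
    | mem x hx =>
      obtain ⟨y, rfl⟩ := hx
      have h2 := (mul_eq_zero.1 (h y.1 y.2)).resolve_left ht
      rw [map_mul, Units.val_mul] at h2
      rw [zero_mul, trace_zero]
      exact h2
    | zero => simp
    | add x y _ _ hx hy => rw [mul_add, mul_add, trace_add, trace_add, hx, hy]
    | smul c x _ hx => rw [mul_smul_comm, mul_smul_comm, trace_smul, trace_smul, hx]
  have h2 : (ρ g : Matrix (Fin m) (Fin m) k) = 0 := Matrix.ext_iff_trace_mul_right.2 h1
  have h3 : (ρ g : Matrix (Fin m) (Fin m) k) * (ρ g⁻¹ : Matrix (Fin m) (Fin m) k) = 1 := by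
    rw [← Units.val_mul, ← map_mul, mul_inv_cancel, map_one, Units.val_one]
  rw [h2, zero_mul] at h3
  have h4 := congrFun (congrFun h3 ⟨0, hm⟩) ⟨0, hm⟩
  rw [Matrix.one_apply_eq] at h4
  exact zero_ne_one h4

/-- the descended representation is continuous -/
theorem descend_cont [TopologicalSpace G] [IsTopologicalGroup G] [TopologicalSpace k]
    [IsTopologicalRing k] (hm : 0 < m) {R : G →* GL (Fin n × Fin m) k} {ρ : G →* GL (Fin m) k}
    (hR : Continuous R) (hρ : Continuous ρ) {U : G →* GL (Fin n) k} {P : GL (Fin n × Fin m) k}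
    (h : ∀ g, R g = P * kr (U g) (ρ g) * P⁻¹) : Continuous U := by
  have h1 : Continuous fun g => (U g : Matrix (Fin n) (Fin n) k) := by
    have e : ∀ g, (U g : Matrix (Fin n) (Fin n) k) = Matrix.of fun i j =>
        (J n (ρ g⁻¹ : Matrix (Fin m) (Fin m) k) * ((P⁻¹ * R g * P : GL (Fin n × Fin m) k) :
          Matrix (Fin n × Fin m) (Fin n × Fin m) k)) (i, ⟨0, hm⟩) (j, ⟨0, hm⟩) := by
      intro g
      have e1 : P⁻¹ * R g * P = kr (U g) (ρ g) := by rw [h]; group
      have e2 : J n (ρ g⁻¹ : Matrix (Fin m) (Fin m) k) * ((kr (U g) (ρ g) : GL (Fin n × Fin m) k) :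
          Matrix (Fin n × Fin m) (Fin n × Fin m) k) = (U g : Matrix (Fin n) (Fin n) k) ⊗ₖ
            (1 : Matrix (Fin m) (Fin m) k) := by
        unfold J
        rw [kr_val, ← Matrix.mul_kronecker_mul, one_mul, ← Units.val_mul, ← map_mul,
          inv_mul_cancel, map_one, Units.val_one]
      rw [e1, e2]
      ext i j
      rw [Matrix.of_apply, Matrix.kroneckerMap_apply, Matrix.one_apply_eq, mul_one]
    have hc1 : Continuous fun g => (ρ g⁻¹ : Matrix (Fin m) (Fin m) k) :=
      Units.continuous_val.comp (hρ.comp continuous_inv)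
    have hc2 : Continuous fun g => ((P⁻¹ * R g * P : GL (Fin n × Fin m) k) :
          Matrix (Fin n × Fin m) (Fin n × Fin m) k) :=
      Units.continuous_val.comp ((continuous_const.mul hR).mul continuous_const)
    have hc3 : Continuous fun g => J n (ρ g⁻¹ : Matrix (Fin m) (Fin m) k) := by
      refine continuous_matrix fun p q => ?_
      show Continuous fun g => ((1 : Matrix (Fin n) (Fin n) k) ⊗ₖ
        (ρ g⁻¹ : Matrix (Fin m) (Fin m) k)) p q
      simp only [Matrix.kroneckerMap_apply]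
      exact continuous_const.mul (hc1.matrix_elem _ _)
    have hc4 := hc3.matrix_mul hc2
    simp_rw [e]
    refine continuous_matrix fun i j => ?_
    simp only [Matrix.of_apply]
    exact hc4.matrix_elem _ _
  rw [Units.continuous_iff]
  refine ⟨h1, ?_⟩
  have h2 : Continuous fun g => (U g⁻¹ : Matrix (Fin n) (Fin n) k) := h1.comp continuous_inv
  refine h2.congr fun g => ?_
  rw [map_inv]

end descend

end Pool.Agent.Q65.TD
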