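import Pool.Agent.Q65.TD.Lin
import Pool.Agent.Y405.ZO.Frob

/-!
# Tensor descent for Galois representations
-/

set_option autoImplicit false
set_option linter.unusedSectionVars false

namespace Pool.Agent.Q65.TD

open Matrix NumberField IsDedekindDomain Topology Polynomial
open Pool.Agent.W401.Cheb (GK IsFrob IsInert)

section defs

variable {K : Type} [Field K] [NumberField K] {k : Type} [Field k] [TopologicalSpace k]
  {ι : Type} [Fintype ι] [DecidableEq ι]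

/-- The representation `r` of the absolute Galois group of `K` corresponds to the family of
eigenvalues `α v` outside `S`: it is continuous, trivial on the inertia subgroups at `v ∉ S`, and
maps every geometric Frobenius element at `v ∉ S` to a matrix conjugate to the diagonal matrix with
the diagonal entries `α v i`. -/
structure Corr (S : Set (HeightOneSpectrum (𝓞 K)))
    (α : HeightOneSpectrum (𝓞 K) → ι → kˣ) (r : GK K →* GL ι k) : Prop where
  continuous : Continuous r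
  unramified : ∀ v ∉ S, ∀ τ : GK K, IsInert v τ → r τ = 1
  frobenius : ∀ v ∉ S, ∀ σ : GK K, IsFrob v σ → IsConj (r σ)⁻¹ (dg (α v))

/-- `ρ` is absolutely irreducible on the subgroup `N`: the matrices `ρ x`, `x ∈ N`, span the algebra
of all matrices. -/
def AbsIrrOn {G : Type} [Group G] (ρ : G →* GL ι k) (N : Subgroup G) : Prop :=
  Submodule.span k ((fun x => (ρ x : Matrix ι ι k)) '' (N : Set G)) = ⊤

theorem AbsIrrOn.absIrr {G : Type} [Group G] {ρ : G →* GL ι k} {N : Subgroup G}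
    (h : AbsIrrOn ρ N) : AbsIrr (ρ.comp N.subtype) := by
  unfold AbsIrrOn at h
  unfold AbsIrr
  rw [← h]
  congr 1
  ext X
  constructor
  · rintro ⟨x, rfl⟩
    exact ⟨x.1, x.2, rfl⟩
  · rintro ⟨x, hx, rfl⟩
    exact ⟨⟨x, hx⟩, rfl⟩

theorem AbsIrrOn.mono {G : Type} [Group G] {ρ : G →* GL ι k} {N N' : Subgroup G} (hle : N ≤ N')
    (h : AbsIrrOn ρ N) : AbsIrrOn ρ N' := by
  unfold AbsIrrOn at h ⊢
  rw [eq_top_iff, ← h]
  exact Submodule.span_mono (Set.image_mono hle)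

end defs

section trace

variable {K : Type} [Field K] [NumberField K] {k : Type} [Field k] [TopologicalSpace k]
  [IsTopologicalRing k] [T2Space k] {ι : Type} [Fintype ι] [DecidableEq ι]
  {S : Set (HeightOneSpectrum (𝓞 K))} {α : HeightOneSpectrum (𝓞 K) → ι → kˣ}

/-- continuous functions which agree at the Frobenius elements are equal -/
theorem cheb_eq (hS : S.Finite) {f₁ f₂ : GK K → k} (h₁ : Continuous f₁) (h₂ : Continuous f₂)
    (h : ∀ v ∉ S, ∀ σ : GK K, IsFrob v σ → f₁ σ⁻¹ = f₂ σ⁻¹) (x : GK K) : f₁ x = f₂ x := by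
  by_contra hne
  obtain ⟨v, hv, σ, hσ, hy⟩ := Pool.Agent.Y405.ZO.frob_core K {y | f₁ y ≠ f₂ y}
    (isOpen_ne_fun h₁ h₂) ⟨x, hne⟩ S hS
  exact hy (h v hv σ hσ)

theorem Corr.trace_pow {r : GK K →* GL ι k} (h : Corr S α r) {v : HeightOneSpectrum (𝓞 K)}
    (hv : v ∉ S) {σ : GK K} (hσ : IsFrob v σ) (j : ℕ) :
    (r (σ⁻¹ ^ j) : Matrix ι ι k).trace = ∑ i, (α v i : k) ^ j := by
  rw [map_pow, map_inv, trace_conj (isConj_pow (h.frobenius v hv σ hσ) j), dg_pow_trace]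

theorem Corr.trace_one {r : GK K →* GL ι k} (h : Corr S α r) {v : HeightOneSpectrum (𝓞 K)}
    (hv : v ∉ S) {σ : GK K} (hσ : IsFrob v σ) :
    (r σ⁻¹ : Matrix ι ι k).trace = ∑ i, (α v i : k) := by
  have := h.trace_pow hv hσ 1
  simpa using this

theorem cont_trace {r : GK K →* GL ι k} (h : Continuous r) :
    Continuous fun x => (r x : Matrix ι ι k).trace :=
  (Units.continuous_val.comp h).matrix_trace

end trace

section main

variable {K : Type} [Field K] [NumberField K] {k : Type} [Field k] [TopologicalSpace k]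
  [IsTopologicalRing k] [T2Space k] {S : Set (HeightOneSpectrum (𝓞 K))} {n : ℕ}
  {α : HeightOneSpectrum (𝓞 K) → Fin n → kˣ}

/-- the relation between the traces -/
theorem trace_rel (hS : S.Finite) {m m' : ℕ} {β : HeightOneSpectrum (𝓞 K) → Fin m → kˣ}
    {β' : HeightOneSpectrum (𝓞 K) → Fin m' → kˣ} {ρ : GK K →* GL (Fin m) k}
    {ρ' : GK K →* GL (Fin m') k} (hρ : Corr S β ρ) (hρ' : Corr S β' ρ')
    {R : GK K →* GL (Fin n × Fin m) k} {R' : GK K →* GL (Fin n × Fin m') k}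
    (hR : Corr S (fun v p => α v p.1 * β v p.2) R) (hR' : Corr S (fun v p => α v p.1 * β' v p.2) R')
    (x : GK K) : (R x : Matrix (Fin n × Fin m) (Fin n × Fin m) k).trace *
        (ρ' x : Matrix (Fin m') (Fin m') k).trace =
      (R' x : Matrix (Fin n × Fin m') (Fin n × Fin m') k).trace *
        (ρ x : Matrix (Fin m) (Fin m) k).trace := by
  refine cheb_eq hS (f₁ := fun x => (R x : Matrix (Fin n × Fin m) (Fin n × Fin m) k).trace *
        (ρ' x : Matrix (Fin m') (Fin m') k).trace) (f₂ := fun x =>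
      (R' x : Matrix (Fin n × Fin m') (Fin n × Fin m') k).trace *
        (ρ x : Matrix (Fin m) (Fin m) k).trace)
      ((cont_trace hR.continuous).mul (cont_trace hρ'.continuous))
      ((cont_trace hR'.continuous).mul (cont_trace hρ.continuous)) ?_ x
  intro v hv σ hσ
  show (R σ⁻¹ : Matrix (Fin n × Fin m) (Fin n × Fin m) k).trace *
        (ρ' σ⁻¹ : Matrix (Fin m') (Fin m') k).trace =
      (R' σ⁻¹ : Matrix (Fin n × Fin m') (Fin n × Fin m') k).trace *
        (ρ σ⁻¹ : Matrix (Fin m) (Fin m) k).trace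
  rw [hR.trace_one hv hσ, hρ'.trace_one hv hσ, hR'.trace_one hv hσ, hρ.trace_one hv hσ,
    Fintype.sum_prod_type, Fintype.sum_prod_type]
  have e : ∀ (m : ℕ) (β : Fin m → kˣ), ∑ x, ∑ y, ((α v x * β y : kˣ) : k) =
      (∑ x, (α v x : k)) * ∑ y, (β y : k) := by
    intro m β
    rw [Finset.sum_mul_sum]
    simp only [Units.val_mul]
  rw [e, e]
  ring

/-- **Tensor descent for Galois representations.** -/
theorem galois_descent [IsAlgClosed k] (hS : S.Finite)
    -- the reference representation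
    {m₀ : ℕ} (hm₀ : 0 < m₀) (hbig : ∀ j : ℕ, 1 ≤ j → j ≤ n * m₀ → (j : k) ≠ 0)
    {β₀ : HeightOneSpectrum (𝓞 K) → Fin m₀ → kˣ} {ρ₀ : GK K →* GL (Fin m₀) k} (hρ₀ : Corr S β₀ ρ₀)
    {R₀ : GK K →* GL (Fin n × Fin m₀) k} (hR₀ : Corr S (fun v p => α v p.1 * β₀ v p.2) R₀)
    (hss : Semisimple R₀)
    -- the other representations
    {ι : Type} {m : ι → ℕ} {β : ∀ s, HeightOneSpectrum (𝓞 K) → Fin (m s) → kˣ}
    {ρ : ∀ s, GK K →* GL (Fin (m s)) k} (hρ : ∀ s, Corr S (β s) (ρ s))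
    {R : ∀ s, GK K →* GL (Fin n × Fin (m s)) k}
    (hR : ∀ s, Corr S (fun v p => α v p.1 * β s v p.2) (R s))
    (s₁ : ι) (hs₁ : (m s₁ : k) ≠ 0)
    (hirr : ∀ s, AbsIrrOn ρ₀ ((R s₁).ker ⊓ (ρ s₁).ker ⊓ ((R s).ker ⊓ (ρ s).ker))) :
    ∃ r : GK K →* GL (Fin n) k, Continuous r ∧ (∀ v ∉ S, ∀ τ : GK K, IsInert v τ → r τ = 1) ∧
      (∃ P, ∀ g, R₀ g = P * kr (r g) (ρ₀ g) * P⁻¹) ∧
      (∀ s g, (R s g : Matrix (Fin n × Fin (m s)) (Fin n × Fin (m s)) k).trace =
        (r g : Matrix (Fin n) (Fin n) k).trace * (ρ s g : Matrix (Fin (m s)) (Fin (m s)) k).trace) ∧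
      (R s₁).ker ⊓ (ρ s₁).ker ≤ r.ker ∧
      ∀ v ∉ S, (∀ j : ℕ, 1 ≤ j → j ≤ n → ∑ i, (β₀ v i : k) ^ j ≠ 0 ∨
        ∃ s, ∑ i, (β s v i : k) ^ j ≠ 0) → ∀ σ, IsFrob v σ → IsConj (r σ)⁻¹ (dg (α v)) := by
  classical
  set N₁ : Subgroup (GK K) := (R s₁).ker ⊓ (ρ s₁).ker with hN₁
  have hirr₁ : AbsIrrOn ρ₀ N₁ := (hirr s₁).mono inf_le_left
  have hrel : ∀ s g, (R s g : Matrix (Fin n × Fin (m s)) (Fin n × Fin (m s)) k).trace *
        (ρ₀ g : Matrix (Fin m₀) (Fin m₀) k).trace =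
      (R₀ g : Matrix (Fin n × Fin m₀) (Fin n × Fin m₀) k).trace *
        (ρ s g : Matrix (Fin (m s)) (Fin (m s)) k).trace := fun s g =>
    trace_rel hS (hρ s) hρ₀ (hR s) hR₀ g
  have htr : ∀ x ∈ N₁, (R₀ x : Matrix (Fin n × Fin m₀) (Fin n × Fin m₀) k).trace =
      n * (ρ₀ x : Matrix (Fin m₀) (Fin m₀) k).trace := by
    rintro x ⟨h1, h2⟩
    have h3 := hrel s₁ x
    rw [(R s₁).mem_ker.1 h1, (ρ s₁).mem_ker.1 h2, Units.val_one, Units.val_one, Matrix.trace_one,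
      Matrix.trace_one, Fintype.card_prod, Fintype.card_fin, Fintype.card_fin] at h3
    push_cast at h3
    apply mul_right_cancel₀ hs₁
    rw [← h3]
    ring
  obtain ⟨U, P, hP, hU⟩ := descend hm₀ hbig R₀ hss ρ₀ N₁ hirr₁.absIrr htr
  have hUtr : ∀ g, (R₀ g : Matrix (Fin n × Fin m₀) (Fin n × Fin m₀) k).trace =
      (U g : Matrix (Fin n) (Fin n) k).trace * (ρ₀ g : Matrix (Fin m₀) (Fin m₀) k).trace := by
    intro g
    have h1 : IsConj (R₀ g) (kr (U g) (ρ₀ g)) := by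
      rw [isConj_iff]
      exact ⟨P⁻¹, by rw [hP]; group⟩
    rw [trace_conj h1, kr_trace]
  have htrs : ∀ s g, (R s g : Matrix (Fin n × Fin (m s)) (Fin n × Fin (m s)) k).trace =
      (U g : Matrix (Fin n) (Fin n) k).trace *
        (ρ s g : Matrix (Fin (m s)) (Fin (m s)) k).trace := by
    intro s g
    rw [← sub_eq_zero]
    refine cancel hm₀ ρ₀ _ (hirr s).absIrr g _ ?_
    rintro x ⟨hx1, hx2, hx3⟩
    have h1 := hrel s (g * x)
    rw [hUtr, map_mul (R s), map_mul (ρ s), map_mul U, (R s).mem_ker.1 hx2, (ρ s).mem_ker.1 hx3,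
      hU x hx1, mul_one, mul_one, mul_one] at h1
    rw [sub_mul, h1]
    ring
  refine ⟨U, descend_cont hm₀ hR₀.continuous hρ₀.continuous hP, fun v hv τ hτ => ?_, ⟨P, hP⟩, htrs,
    fun x hx => U.mem_ker.2 (hU x hx), fun v hv hrich σ hσ => ?_⟩
  · have h1 := hP τ
    rw [hR₀.unramified v hv τ hτ, hρ₀.unramified v hv τ hτ] at h1
    have h2 : kr (U τ) (1 : GL (Fin m₀) k) = kr 1 1 := by
      rw [kr_one]
      have : kr (U τ) (1 : GL (Fin m₀) k) = P⁻¹ * (P * kr (U τ) (1 : GL (Fin m₀) k) * P⁻¹) * P := by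
        group
      rw [this, ← h1]
      group
    exact kr_inj hm₀ h2
  · -- Frobenius
    have hker : kr (U σ)⁻¹ (ρ₀ σ)⁻¹ = P⁻¹ * (R₀ σ)⁻¹ * P := by
      rw [← kr_inv, hP]
      group
    have hss1 : Module.End.IsSemisimple
        (Matrix.toLin' (((U σ)⁻¹ : GL (Fin n) k) : Matrix (Fin n) (Fin n) k)) := by
      refine ss_factor hm₀ (b := (ρ₀ σ)⁻¹) (γ := fun p => α v p.1 * β₀ v p.2) ?_
        (hρ₀.frobenius v hv σ hσ)
      refine IsConj.trans ?_ (hR₀.frobenius v hv σ hσ)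
      rw [hker, isConj_iff]
      exact ⟨P, by group⟩
    refine conj_dg_of_ss _ hss1 _ ?_
    rw [← charpoly_dg]
    have hm : n ≤ n * m₀ := Nat.le_mul_of_pos_right n hm₀
    refine charpoly_of_tr (fun j h1 h2 => hbig j h1 (h2.trans hm)) _ _ fun j h1 h2 => ?_
    have hα := dg_pow_trace (α v) j
    rw [Units.val_pow_eq_pow_val] at hα
    rw [hα]
    have hU' : (((U σ)⁻¹ : GL (Fin n) k) : Matrix (Fin n) (Fin n) k) ^ j =
        (U (σ⁻¹ ^ j) : Matrix (Fin n) (Fin n) k) := by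
      rw [map_pow, map_inv, Units.val_pow_eq_pow_val]
    rw [hU']
    have e : ∀ (m : ℕ) (β : Fin m → kˣ), ∑ p : Fin n × Fin m, ((α v p.1 * β p.2 : kˣ) : k) ^ j =
        (∑ x, (α v x : k) ^ j) * ∑ y, (β y : k) ^ j := by
      intro m β
      rw [Finset.sum_mul_sum, Fintype.sum_prod_type]
      simp only [Units.val_mul, mul_pow]
    rcases hrich j h1 h2 with h | ⟨s, h⟩
    · have h3 := hUtr (σ⁻¹ ^ j)
      rw [hR₀.trace_pow hv hσ, hρ₀.trace_pow hv hσ, e] at h3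
      exact (mul_right_cancel₀ h h3).symm
    · have h3 := htrs s (σ⁻¹ ^ j)
      rw [(hR s).trace_pow hv hσ, (hρ s).trace_pow hv hσ, e] at h3
      exact (mul_right_cancel₀ h h3).symm

end main

end Pool.Agent.Q65.TD
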