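import Pool.Agent.Q65.TD.Desc
import Pool.Agent.TH658.Eq.Newt
import Pool.Agent.Y800.Diag

/-!
# Tensor descent for representations: eigenvalues
-/

set_option autoImplicit false
set_option linter.unusedSectionVars false

namespace Pool.Agent.Q65.TD

open Module Matrix Polynomial
open scoped Kronecker

section diag

variable {k : Type} [Field k] {ι : Type} [Fintype ι] [DecidableEq ι]

/-- the diagonal matrix with the diagonal entries `α i` -/
def dg (α : ι → kˣ) : GL ι k where
  val := Matrix.diagonal fun i => (α i : k)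
  inv := Matrix.diagonal fun i => (((α i)⁻¹ : kˣ) : k)
  val_inv := by
    rw [Matrix.diagonal_mul_diagonal, ← Matrix.diagonal_one]
    congr 1
    funext i
    rw [← Units.val_mul, mul_inv_cancel, Units.val_one]
  inv_val := by
    rw [Matrix.diagonal_mul_diagonal, ← Matrix.diagonal_one]
    congr 1
    funext i
    rw [← Units.val_mul, inv_mul_cancel, Units.val_one]

theorem dg_pow_trace (α : ι → kˣ) (j : ℕ) :
    ((dg α ^ j : GL ι k) : Matrix ι ι k).trace = ∑ i, (α i : k) ^ j := by
  rw [Units.val_pow_eq_pow_val]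
  show (Matrix.diagonal (fun i => (α i : k)) ^ j).trace = _
  rw [Matrix.diagonal_pow, Matrix.trace_diagonal]
  rfl

theorem trace_conj {A B : GL ι k} (h : IsConj A B) :
    (A : Matrix ι ι k).trace = (B : Matrix ι ι k).trace := by
  obtain ⟨c, hc⟩ := isConj_iff.1 h
  rw [← hc, Units.val_mul, Units.val_mul, Matrix.trace_mul_comm, ← mul_assoc, ← Units.val_mul,
    inv_mul_cancel, Units.val_one, one_mul]

theorem isConj_pow {G : Type*} [Group G] {A B : G} (h : IsConj A B) (j : ℕ) :
    IsConj (A ^ j) (B ^ j) := by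
  obtain ⟨c, hc⟩ := isConj_iff.1 h
  rw [isConj_iff]
  exact ⟨c, by rw [← hc, conj_pow]⟩

theorem aeval_conj (c A : GL ι k) (q : k[X]) :
    aeval ((c * A * c⁻¹ : GL ι k) : Matrix ι ι k) q =
      (c : Matrix ι ι k) * aeval (A : Matrix ι ι k) q * ((c⁻¹ : GL ι k) : Matrix ι ι k) := by
  have hc : (c : Matrix ι ι k) * ((c⁻¹ : GL ι k) : Matrix ι ι k) = 1 := by
    rw [← Units.val_mul, mul_inv_cancel, Units.val_one]
  induction q using Polynomial.induction_on' with
  | add p q hp hq => rw [map_add, map_add, hp, hq, mul_add, add_mul]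
  | monomial m a =>
    rw [aeval_monomial, aeval_monomial, ← Algebra.smul_def, ← Algebra.smul_def, mul_smul_comm,
      smul_mul_assoc, ← Units.val_pow_eq_pow_val, conj_pow, Units.val_mul, Units.val_mul,
      Units.val_pow_eq_pow_val]

theorem aeval_diag (d : ι → k) (q : k[X]) :
    aeval (Matrix.diagonal d) q = Matrix.diagonal fun i => q.eval (d i) := by
  induction q using Polynomial.induction_on' with
  | add p q hp hq =>
    rw [map_add, hp, hq, Matrix.diagonal_add]
    congr 1
    funext i
    rw [eval_add]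
  | monomial m a =>
    rw [aeval_monomial, ← Algebra.smul_def, Matrix.diagonal_pow, ← Matrix.diagonal_smul]
    congr 1
    funext i
    simp

theorem semisimple_of_conj_dg {A : GL ι k} {α : ι → kˣ} (h : IsConj A (dg α)) :
    Module.End.IsSemisimple (Matrix.toLin' (A : Matrix ι ι k)) := by
  classical
  obtain ⟨c, hc⟩ := isConj_iff.1 h.symm
  set q : k[X] := ∏ x ∈ Finset.univ.image (fun i => (α i : k)), (X - C x) with hq
  have hsq : Squarefree q := by
    have h1 : q.Separable := Polynomial.separable_prod_X_sub_C_iff' (f := fun x => x) |>.2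
      fun x _ y _ hxy => hxy
    exact h1.squarefree
  apply Module.End.isSemisimple_of_squarefree_aeval_eq_zero hsq
  have h1 : aeval (Matrix.toLin' (A : Matrix ι ι k)) q =
      Matrix.toLinAlgEquiv' (aeval (A : Matrix ι ι k) q) :=
    (Polynomial.aeval_algHom_apply (Matrix.toLinAlgEquiv' (R := k) (n := ι)).toAlgHom
      (A : Matrix ι ι k) q)
  rw [h1]
  have h2 : aeval (A : Matrix ι ι k) q = 0 := by
    rw [← hc, aeval_conj]
    have h3 : aeval ((dg α : GL ι k) : Matrix ι ι k) q = 0 := by
      show aeval (Matrix.diagonal fun i => (α i : k)) q = 0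
      rw [aeval_diag, ← Matrix.diagonal_zero]
      congr 1
      funext i
      rw [hq, eval_prod]
      refine Finset.prod_eq_zero (i := (α i : k)) (Finset.mem_image.2 ⟨i, Finset.mem_univ _, rfl⟩) ?_
      simp
    rw [h3, mul_zero, zero_mul]
  rw [h2, map_zero]

end diag

section fac

variable {k : Type} [Field k] {n m : ℕ}

theorem aeval_kr_one (u : GL (Fin n) k) (q : k[X]) :
    aeval ((kr u (1 : GL (Fin m) k) : GL (Fin n × Fin m) k) :
      Matrix (Fin n × Fin m) (Fin n × Fin m) k) q =
      aeval (u : Matrix (Fin n) (Fin n) k) q ⊗ₖ (1 : Matrix (Fin m) (Fin m) k) := by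
  induction q using Polynomial.induction_on' with
  | add p q hp hq => rw [map_add, map_add, hp, hq, Matrix.add_kronecker]
  | monomial j a =>
    rw [aeval_monomial, aeval_monomial, ← Algebra.smul_def, ← Algebra.smul_def,
      Matrix.smul_kronecker, ← Units.val_pow_eq_pow_val, kr_pow, kr_val, one_pow, Units.val_one,
      Units.val_pow_eq_pow_val]

theorem isConj_kr {A A' : GL (Fin n) k} {B B' : GL (Fin m) k} (h : IsConj A A') (h' : IsConj B B') :
    IsConj (kr A B) (kr A' B') := by
  obtain ⟨c, hc⟩ := isConj_iff.1 h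
  obtain ⟨d, hd⟩ := isConj_iff.1 h'
  rw [isConj_iff]
  exact ⟨kr c d, by rw [kr_inv, kr_mul, kr_mul, hc, hd]⟩

theorem kr_dg (α : Fin n → kˣ) (β : Fin m → kˣ) :
    kr (dg α) (dg β) = dg fun p : Fin n × Fin m => α p.1 * β p.2 := by
  apply Units.ext
  rw [kr_val]
  show (Matrix.diagonal fun i => (α i : k)) ⊗ₖ (Matrix.diagonal fun i => (β i : k)) =
    Matrix.diagonal fun p : Fin n × Fin m => ((α p.1 * β p.2 : kˣ) : k)
  rw [Matrix.diagonal_kronecker_diagonal]
  congr 1

/-- a factor of a diagonalizable tensor product is semisimple -/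
theorem ss_factor [PerfectField k] (hm : 0 < m) {u : GL (Fin n) k} {b : GL (Fin m) k}
    {γ : Fin n × Fin m → kˣ} {β : Fin m → kˣ} (h : IsConj (kr u b) (dg γ)) (hb : IsConj b (dg β)) :
    Module.End.IsSemisimple (Matrix.toLin' (u : Matrix (Fin n) (Fin n) k)) := by
  have h1 := semisimple_of_conj_dg h
  have h2 : IsConj (kr (1 : GL (Fin n) k) b⁻¹) (dg fun p : Fin n × Fin m => (1 : kˣ) * (β p.2)⁻¹) := by
    rw [← kr_dg (fun _ => 1) (fun j => (β j)⁻¹)]
    apply isConj_kr
    · have : dg (fun _ : Fin n => (1 : kˣ)) = 1 := by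
        apply Units.ext
        show Matrix.diagonal (fun _ : Fin n => ((1 : kˣ) : k)) = 1
        rw [Units.val_one]
        exact Matrix.diagonal_one
      rw [this]
    · obtain ⟨c, hc⟩ := isConj_iff.1 hb
      rw [isConj_iff]
      refine ⟨c, ?_⟩
      have h3 : c * b⁻¹ * c⁻¹ = (dg β)⁻¹ := by rw [← hc]; group
      rw [h3]
      apply Units.ext
      rfl
  have h3 := semisimple_of_conj_dg h2
  have hcomm : Commute (Matrix.toLin' ((kr u b : GL (Fin n × Fin m) k) :
      Matrix (Fin n × Fin m) (Fin n × Fin m) k)) (Matrix.toLin' ((kr 1 b⁻¹ : GL (Fin n × Fin m) k) :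
      Matrix (Fin n × Fin m) (Fin n × Fin m) k)) := by
    unfold Commute SemiconjBy
    rw [Module.End.mul_eq_comp, Module.End.mul_eq_comp, ← Matrix.toLin'_mul, ← Matrix.toLin'_mul,
      ← Units.val_mul, ← Units.val_mul, kr_mul, kr_mul, mul_one, one_mul, mul_inv_cancel,
      inv_mul_cancel]
  have h4 := Module.End.IsSemisimple.mul_of_commute hcomm h1 h3
  rw [Module.End.mul_eq_comp, ← Matrix.toLin'_mul, ← Units.val_mul, kr_mul, mul_one,
    mul_inv_cancel] at h4
  have h5 := h4.minpoly_squarefree
  rw [Matrix.minpoly_toLin'] at h5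
  apply Module.End.isSemisimple_of_squarefree_aeval_eq_zero h5
  set q := minpoly k ((kr u (1 : GL (Fin m) k) : GL (Fin n × Fin m) k) :
      Matrix (Fin n × Fin m) (Fin n × Fin m) k)
  have h6 : aeval (Matrix.toLin' (u : Matrix (Fin n) (Fin n) k)) q =
      Matrix.toLinAlgEquiv' (aeval (u : Matrix (Fin n) (Fin n) k) q) :=
    (Polynomial.aeval_algHom_apply (Matrix.toLinAlgEquiv' (R := k) (n := Fin n)).toAlgHom
      (u : Matrix (Fin n) (Fin n) k) q)
  rw [h6]
  have h7 : aeval (u : Matrix (Fin n) (Fin n) k) q = 0 := by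
    have h8 := minpoly.aeval k ((kr u (1 : GL (Fin m) k) : GL (Fin n × Fin m) k) :
      Matrix (Fin n × Fin m) (Fin n × Fin m) k)
    rw [aeval_kr_one] at h8
    ext i j
    have h3 := congrFun (congrFun h8 (i, ⟨0, hm⟩)) (j, ⟨0, hm⟩)
    simpa [Matrix.kroneckerMap_apply] using h3
  rw [h7, map_zero]

/-- the characteristic polynomial is determined by the traces of the first `n` powers -/
theorem charpoly_of_tr (hn : ∀ j : ℕ, 1 ≤ j → j ≤ n → (j : k) ≠ 0) (A B : Matrix (Fin n) (Fin n) k)
    (h : ∀ j : ℕ, 1 ≤ j → j ≤ n → (A ^ j).trace = (B ^ j).trace) : A.charpoly = B.charpoly := by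
  have hdeg : ∀ (M : Matrix (Fin n) (Fin n) k) (j : ℕ), n < j → M.charpolyRev.coeff j = 0 := by
    intro M j hj
    rw [← Matrix.reverse_charpoly]
    apply coeff_eq_zero_of_natDegree_lt
    refine lt_of_le_of_lt (reverse_natDegree_le _) ?_
    rwa [Matrix.charpoly_natDegree_eq_dim, Fintype.card_fin]
  have h1 : ∀ j, A.charpolyRev.coeff j = B.charpolyRev.coeff j := by
    intro j
    induction j using Nat.strong_induction_on with
    | _ j ih =>
      rcases j with _ | j
      · rw [coeff_zero_eq_eval_zero, coeff_zero_eq_eval_zero, Matrix.eval_charpolyRev,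
          Matrix.eval_charpolyRev]
      · by_cases hj : n < j + 1
        · rw [hdeg _ _ hj, hdeg _ _ hj]
        · have hk : ((j : k) + 1) ≠ 0 := by
            have := hn (j + 1) (by omega) (by omega)
            push_cast at this
            exact this
          refine mul_right_cancel₀ hk ?_
          rw [Pool.Agent.TH658.Eq.newton, Pool.Agent.TH658.Eq.newton]
          congr 1
          refine Finset.sum_congr rfl fun p hp => ?_
          have h3 := (Finset.HasAntidiagonal.mem_antidiagonal.mp hp)
          rw [ih p.1 (by omega), h _ (by omega) (by omega)]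
  have h2 : A.charpolyRev = B.charpolyRev := Polynomial.ext h1
  rw [← Matrix.reverse_charpoly, ← Matrix.reverse_charpoly] at h2
  have hd : A.charpoly.natDegree = B.charpoly.natDegree := by
    rw [Matrix.charpoly_natDegree_eq_dim, Matrix.charpoly_natDegree_eq_dim]
  unfold reverse at h2
  rw [hd] at h2
  have h4 := congrArg (reflect B.charpoly.natDegree) h2
  rw [reflect_reflect, reflect_reflect] at h4
  exact h4

/-- a semisimple matrix is conjugate to the diagonal matrix of its eigenvalues -/
theorem conj_dg_of_ss [IsAlgClosed k] (A : GL (Fin n) k)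
    (hss : Module.End.IsSemisimple (Matrix.toLin' (A : Matrix (Fin n) (Fin n) k))) (α : Fin n → kˣ)
    (hα : (A : Matrix (Fin n) (Fin n) k).charpoly = ∏ i, (X - C (α i : k))) : IsConj A (dg α) := by
  classical
  set f : Module.End k (Fin n → k) := Matrix.toLin' (A : Matrix (Fin n) (Fin n) k) with hf
  have htop := hss.iSup_eigenspace_eq_top
  have hint : DirectSum.IsInternal f.eigenspace :=
    DirectSum.isInternal_submodule_of_iSupIndep_of_iSup_eq_top f.eigenspaces_iSupIndep htop
  set b0 := hint.collectedBasis (fun μ => Module.finBasis k (f.eigenspace μ)) with hb0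
  have hfin : Finite (Σ μ : k, Fin (Module.finrank k (f.eigenspace μ))) :=
    Module.Finite.finite_basis b0
  have : Fintype (Σ μ : k, Fin (Module.finrank k (f.eigenspace μ))) := Fintype.ofFinite _
  have hcard : Fintype.card (Σ μ : k, Fin (Module.finrank k (f.eigenspace μ))) =
      Fintype.card (Fin n) := by
    rw [← Module.finrank_eq_card_basis b0, Module.finrank_fintype_fun_eq_card]
  have e := Fintype.equivOfCardEq hcard
  set b : Module.Basis (Fin n) k (Fin n → k) := b0.reindex e with hb
  set d : Fin n → k := fun i => (e.symm i).1 with hd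
  have hbd : ∀ i, (A : Matrix (Fin n) (Fin n) k).mulVec (b i) = d i • b i := by
    intro i
    have h1 : b i = b0 (e.symm i) := by rw [hb, Module.Basis.reindex_apply]
    have h2 : b i ∈ f.eigenspace (d i) := by
      rw [h1]
      exact hint.collectedBasis_mem _ _
    rw [Module.End.mem_eigenspace_iff, hf, Matrix.toLin'_apply] at h2
    exact h2
  obtain ⟨h, hh⟩ := Pool.Agent.Y800.conj_of_basis _ b d hbd
  have h1 : ∏ i, (X - C (d i)) = ∏ i, (X - C (α i : k)) := by
    rw [← hα, hh, Pool.Agent.Y800.charpoly_conj, Pool.Agent.Y800.charpoly_diag]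
  have h2 := congrArg Polynomial.roots h1
  have h3 : ∀ d : Fin n → k, (∏ i, (X - C (d i))).roots = Finset.univ.val.map d := by
    intro d
    have : ∏ i, (X - C (d i)) = ((Finset.univ.val.map d).map fun a => X - C a).prod := by
      rw [Multiset.map_map]; rfl
    rw [this, Polynomial.roots_multiset_prod_X_sub_C]
  rw [h3, h3 (fun i => (α i : k))] at h2
  obtain ⟨σ, hσ⟩ := Pool.Agent.Y800.exists_perm (fun i => (α i : k)) d h2.symm
  obtain ⟨h, hh⟩ := Pool.Agent.Y800.conj_of_basis (A : Matrix (Fin n) (Fin n) k)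
    (b.reindex σ.symm) (fun i => (α i : k)) (fun i => by
      rw [Module.Basis.reindex_apply, Equiv.symm_symm, hbd, hσ])
  rw [isConj_iff]
  refine ⟨h⁻¹, ?_⟩
  have h4 : A = h * dg α * h⁻¹ := Units.ext (by
    rw [Units.val_mul, Units.val_mul]
    exact hh)
  rw [h4]
  group

theorem charpoly_dg (α : Fin n → kˣ) :
    ((dg α : GL (Fin n) k) : Matrix (Fin n) (Fin n) k).charpoly = ∏ i, (X - C (α i : k)) :=
  Matrix.charpoly_diagonal _

end fac

end Pool.Agent.Q65.TD
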