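import Pool.Agent.Q65.TD.Desc

/-!
# Tensor descent for representations: semisimplicity
-/

set_option autoImplicit false
set_option linter.unusedSectionVars false

namespace Pool.Agent.Q65.TD

open Module Matrix
open scoped Kronecker

section ss

variable {G : Type*} [Group G] {k : Type*} [Field k] {n m : ℕ}

/-- the tensor product of two representations -/
def krHom (r : G →* GL (Fin n) k) (ρ : G →* GL (Fin m) k) : G →* GL (Fin n × Fin m) k where
  toFun g := kr (r g) (ρ g)
  map_one' := by rw [map_one, map_one, kr_one]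
  map_mul' g h := by rw [map_mul, map_mul, kr_mul]

theorem krHom_cont [TopologicalSpace G] [IsTopologicalGroup G] [TopologicalSpace k]
    [IsTopologicalRing k] {r : G →* GL (Fin n) k} {ρ : G →* GL (Fin m) k} (hr : Continuous r)
    (hρ : Continuous ρ) : Continuous (krHom r ρ) := by
  have h1 : Continuous fun g => ((krHom r ρ g : GL (Fin n × Fin m) k) :
      Matrix (Fin n × Fin m) (Fin n × Fin m) k) := by
    refine continuous_matrix fun p q => ?_
    show Continuous fun g => (r g : Matrix (Fin n) (Fin n) k) p.1 q.1 *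
      (ρ g : Matrix (Fin m) (Fin m) k) p.2 q.2
    exact ((Units.continuous_val.comp hr).matrix_elem _ _).mul
      ((Units.continuous_val.comp hρ).matrix_elem _ _)
  rw [Units.continuous_iff]
  refine ⟨h1, ?_⟩
  have h2 : Continuous fun g => ((krHom r ρ g⁻¹ : GL (Fin n × Fin m) k) :
      Matrix (Fin n × Fin m) (Fin n × Fin m) k) := h1.comp continuous_inv
  refine h2.congr fun g => ?_
  rw [map_inv]

/-- the subspace `W ⊗ k ^ m` -/
def lft (m : ℕ) (W : Submodule k (Fin n → k)) : Submodule k (Fin n × Fin m → k) where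
  carrier := {x | ∀ j, (fun i => x (i, j)) ∈ W}
  add_mem' := fun {x y} hx hy j => W.add_mem (hx j) (hy j)
  zero_mem' := fun _ => W.zero_mem
  smul_mem' := fun c x hx j => W.smul_mem c (hx j)

theorem kr_mulVec (A : GL (Fin n) k) (B : GL (Fin m) k) (x : Fin n × Fin m → k) (j : Fin m) :
    (fun i => (((kr A B : GL (Fin n × Fin m) k) : Matrix (Fin n × Fin m) (Fin n × Fin m) k) *ᵥ x)
      (i, j)) = (A : Matrix (Fin n) (Fin n) k) *ᵥ
        (∑ c, (B : Matrix (Fin m) (Fin m) k) j c • fun i => x (i, c)) := by
  funext i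
  rw [Matrix.mulVec, dotProduct, Matrix.mulVec, dotProduct, Fintype.sum_prod_type]
  refine Finset.sum_congr rfl fun l _ => ?_
  rw [Finset.sum_apply, Finset.mul_sum]
  refine Finset.sum_congr rfl fun c _ => ?_
  rw [kr_val, Matrix.kroneckerMap_apply, Pi.smul_apply, smul_eq_mul]
  ring

theorem lft_stable {r : G →* GL (Fin n) k} (ρ : G →* GL (Fin m) k) {W : Submodule k (Fin n → k)}
    (hW : Stable r W) : Stable (krHom r ρ) (lft m W) := by
  intro g x hx j
  show (fun i => (((kr (r g) (ρ g) : GL (Fin n × Fin m) k) :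
    Matrix (Fin n × Fin m) (Fin n × Fin m) k) *ᵥ x) (i, j)) ∈ W
  rw [kr_mulVec]
  refine hW g _ (Submodule.sum_mem _ fun c _ => W.smul_mem _ (hx c))

/-- the vector `v ⊗ e_z` -/
def tv (v : Fin n → k) (z : Fin m) : Fin n × Fin m → k := fun p => if p.2 = z then v p.1 else 0

theorem tv_mem {W : Submodule k (Fin n → k)} {v : Fin n → k} {z : Fin m} :
    tv v z ∈ lft m W ↔ v ∈ W := by
  constructor
  · intro h
    have := h z
    simpa [tv] using this
  · intro h j
    show (fun i => tv v z (i, j)) ∈ W
    by_cases hj : j = z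
    · subst hj
      simpa [tv] using h
    · have : (fun i => tv v z (i, j)) = 0 := by
        funext i
        simp [tv, hj]
      rw [this]
      exact W.zero_mem

theorem J_mulVec (X : Matrix (Fin m) (Fin m) k) (x : Fin n × Fin m → k) (i : Fin n) (j : Fin m) :
    (J n X *ᵥ x) (i, j) = ∑ c, X j c * x (i, c) := by
  rw [Matrix.mulVec, dotProduct, Fintype.sum_prod_type]
  rw [Finset.sum_eq_single i]
  · refine Finset.sum_congr rfl fun c _ => ?_
    unfold J
    rw [Matrix.kroneckerMap_apply, Matrix.one_apply_eq, one_mul]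
  · intro l _ hl
    refine Finset.sum_eq_zero fun c _ => ?_
    unfold J
    rw [Matrix.kroneckerMap_apply, Matrix.one_apply_ne hl.symm, zero_mul, zero_mul]
  · intro h
    exact absurd (Finset.mem_univ _) h

/-- a stable subspace of the tensor product is of the form `W ⊗ k ^ m` -/
theorem stable_lft (hm : 0 < m) {r : G →* GL (Fin n) k} {ρ : G →* GL (Fin m) k}
    (hρ : AbsIrr (ρ.comp r.ker.subtype)) {W : Submodule k (Fin n × Fin m → k)}
    (hW : Stable (krHom r ρ) W) : ∃ W' : Submodule k (Fin n → k), Stable r W' ∧ W = lft m W' := by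
  classical
  have hJ : ∀ X : Matrix (Fin m) (Fin m) k, ∀ w ∈ W, J n X *ᵥ w ∈ W := by
    intro X
    have hX : X ∈ Submodule.span k (Set.range fun x : r.ker =>
        ((ρ.comp r.ker.subtype) x : Matrix (Fin m) (Fin m) k)) := hρ ▸ Submodule.mem_top
    induction hX using Submodule.span_induction with
    | mem x hx =>
      obtain ⟨y, rfl⟩ := hx
      intro w hw
      have h1 := hW y.1 w hw
      have h2 : ((krHom r ρ y.1 : GL (Fin n × Fin m) k) :
          Matrix (Fin n × Fin m) (Fin n × Fin m) k) = J n (ρ y.1 : Matrix (Fin m) (Fin m) k) := by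
        show ((kr (r y.1) (ρ y.1) : GL (Fin n × Fin m) k) :
          Matrix (Fin n × Fin m) (Fin n × Fin m) k) = _
        rw [r.mem_ker.1 y.2, kr_val, Units.val_one]
        rfl
      rw [h2] at h1
      exact h1
    | zero =>
      intro w _
      have : J n (0 : Matrix (Fin m) (Fin m) k) = 0 := Matrix.kronecker_zero _
      rw [this, Matrix.zero_mulVec]
      exact W.zero_mem
    | add x y _ _ hx hy =>
      intro w hw
      have : J n (x + y) = J n x + J n y := Matrix.kronecker_add _ _ _
      rw [this, Matrix.add_mulVec]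
      exact W.add_mem (hx w hw) (hy w hw)
    | smul c x _ hx =>
      intro w hw
      have : J n (c • x) = c • J n x := Matrix.kronecker_smul _ _ _
      rw [this, Matrix.smul_mulVec]
      exact W.smul_mem _ (hx w hw)
  set z : Fin m := ⟨0, hm⟩
  let W' : Submodule k (Fin n → k) :=
    { carrier := {v | tv v z ∈ W}
      add_mem' := fun {v w} hv hw => by
        have : tv (v + w) z = tv v z + tv w z := by
          funext p
          simp only [tv, Pi.add_apply]
          split_ifs <;> simp
        show tv (v + w) z ∈ W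
        rw [this]
        exact W.add_mem hv hw
      zero_mem' := by
        have : tv (0 : Fin n → k) z = 0 := by
          funext p
          simp [tv]
        show tv (0 : Fin n → k) z ∈ W
        rw [this]
        exact W.zero_mem
      smul_mem' := fun c v hv => by
        have : tv (c • v) z = c • tv v z := by
          funext p
          simp only [tv, Pi.smul_apply]
          split_ifs <;> simp
        show tv (c • v) z ∈ W
        rw [this]
        exact W.smul_mem c hv }
  refine ⟨W', ?_, ?_⟩
  · intro g v hv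
    show tv ((r g : Matrix (Fin n) (Fin n) k) *ᵥ v) z ∈ W
    have h1 := hJ (ρ g⁻¹ : Matrix (Fin m) (Fin m) k) _ (hW g _ hv)
    have h2 : J n (ρ g⁻¹ : Matrix (Fin m) (Fin m) k) *ᵥ
        (((krHom r ρ g : GL (Fin n × Fin m) k) : Matrix (Fin n × Fin m) (Fin n × Fin m) k) *ᵥ
          tv v z) = tv ((r g : Matrix (Fin n) (Fin n) k) *ᵥ v) z := by
      rw [Matrix.mulVec_mulVec]
      have h3 : J n (ρ g⁻¹ : Matrix (Fin m) (Fin m) k) * ((krHom r ρ g : GL (Fin n × Fin m) k) :
          Matrix (Fin n × Fin m) (Fin n × Fin m) k) =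
          ((kr (r g) 1 : GL (Fin n × Fin m) k) : Matrix (Fin n × Fin m) (Fin n × Fin m) k) := by
        show J n _ * ((kr (r g) (ρ g) : GL (Fin n × Fin m) k) :
          Matrix (Fin n × Fin m) (Fin n × Fin m) k) = _
        unfold J
        rw [kr_val, kr_val, ← Matrix.mul_kronecker_mul, one_mul, ← Units.val_mul, ← map_mul,
          inv_mul_cancel, map_one]
      rw [h3]
      funext ⟨i, j⟩
      have h4 := congrFun (kr_mulVec (r g) (1 : GL (Fin m) k) (tv v z) j) i
      rw [h4]
      have h5 : (∑ c, ((1 : GL (Fin m) k) : Matrix (Fin m) (Fin m) k) j c •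
          fun i => tv v z (i, c)) = if j = z then v else 0 := by
        rw [Finset.sum_eq_single j]
        · rw [Units.val_one, Matrix.one_apply_eq, one_smul]
          funext i
          simp only [tv]
          split_ifs <;> simp
        · intro c _ hc
          rw [Units.val_one, Matrix.one_apply_ne hc.symm, zero_smul]
        · intro h; exact absurd (Finset.mem_univ _) h
      rw [h5]
      simp only [tv]
      split_ifs with hjz
      · rfl
      · rw [Matrix.mulVec_zero]; rfl
    rw [h2] at h1
    exact h1
  · ext x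
    constructor
    · intro hx j
      show tv (fun i => x (i, j)) z ∈ W
      have h1 := hJ (Matrix.single z j 1) x hx
      have h2 : J n (Matrix.single z j (1 : k)) *ᵥ x = tv (fun i => x (i, j)) z := by
        funext ⟨i, l⟩
        rw [J_mulVec]
        by_cases hl : l = z
        · subst hl
          rw [Finset.sum_eq_single j]
          · simp [tv]
          · intro c _ hc
            simp [Ne.symm hc]
          · intro h; exact absurd (Finset.mem_univ _) h
        · simp [tv, hl, Matrix.single_apply, Ne.symm hl]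
      rw [h2] at h1
      exact h1
    · intro hx
      have h1 : ∀ j, tv (fun i => x (i, j)) j ∈ W := by
        intro j
        have h2 : tv (fun i => x (i, j)) z ∈ W := hx j
        have h3 := hJ (Matrix.single j z 1) _ h2
        have h4 : J n (Matrix.single j z (1 : k)) *ᵥ tv (fun i => x (i, j)) z =
            tv (fun i => x (i, j)) j := by
          funext ⟨i, l⟩
          rw [J_mulVec]
          by_cases hl : l = j
          · subst hl
            rw [Finset.sum_eq_single z]
            · simp [tv]
            · intro c _ hc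
              simp [Ne.symm hc]
            · intro h; exact absurd (Finset.mem_univ _) h
          · simp [tv, hl, Matrix.single_apply, Ne.symm hl]
        rw [h4] at h3
        exact h3
      have h5 : x = ∑ j, tv (fun i => x (i, j)) j := by
        funext ⟨i, l⟩
        rw [Finset.sum_apply]
        simp [tv]
      rw [h5]
      exact Submodule.sum_mem _ fun j _ => h1 j

theorem lft_compl (hm : 0 < m) {W C : Submodule k (Fin n → k)} :
    IsCompl (lft m W) (lft m C) ↔ IsCompl W C := by
  set z : Fin m := ⟨0, hm⟩
  constructor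
  · intro h
    constructor
    · rw [Submodule.disjoint_def]
      intro v h1 h2
      have h3 := (Submodule.disjoint_def.1 h.disjoint) (tv v z) (tv_mem.2 h1) (tv_mem.2 h2)
      funext i
      have := congrFun h3 (i, z)
      simpa [tv] using this
    · rw [codisjoint_iff, eq_top_iff]
      intro v _
      have h1 : tv v z ∈ lft m W ⊔ lft m C := by rw [h.sup_eq_top]; trivial
      obtain ⟨a, ha, c, hc, hac⟩ := Submodule.mem_sup.1 h1
      refine Submodule.mem_sup.2 ⟨_, ha z, _, hc z, ?_⟩
      funext i
      have := congrFun hac (i, z)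
      simpa [tv] using this
  · intro h
    constructor
    · rw [Submodule.disjoint_def]
      intro x h1 h2
      funext ⟨i, j⟩
      exact congrFun ((Submodule.disjoint_def.1 h.disjoint) _ (h1 j) (h2 j)) i
    · rw [codisjoint_iff, eq_top_iff]
      intro x _
      have h1 : ∀ j, ∃ a ∈ W, ∃ c ∈ C, a + c = fun i => x (i, j) := fun j =>
        Submodule.mem_sup.1 (by rw [h.sup_eq_top]; trivial)
      choose a ha c hc hac using h1
      refine Submodule.mem_sup.2 ⟨fun p => a p.2 p.1, fun j => ha j, fun p => c p.2 p.1,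
        fun j => hc j, ?_⟩
      funext ⟨i, j⟩
      exact congrFun (hac j) i

/-- the tensor product with a representation which is absolutely irreducible on the kernel -/
theorem ss_krHom (hm : 0 < m) {r : G →* GL (Fin n) k} {ρ : G →* GL (Fin m) k}
    (hρ : AbsIrr (ρ.comp r.ker.subtype)) : Semisimple (krHom r ρ) ↔ Semisimple r := by
  constructor
  · intro h W hW
    obtain ⟨C, hC, hc⟩ := h (lft m W) (lft_stable ρ hW)
    obtain ⟨C', hC', rfl⟩ := stable_lft hm hρ hC
    exact ⟨C', hC', (lft_compl hm).1 hc⟩
  · intro h W hW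
    obtain ⟨W', hW', rfl⟩ := stable_lft hm hρ hW
    obtain ⟨C', hC', hc⟩ := h W' hW'
    exact ⟨lft m C', lft_stable ρ hC', (lft_compl hm).2 hc⟩

/-- semisimplicity is invariant under conjugation -/
theorem ss_conj {ι : Type*} [Fintype ι] [DecidableEq ι] {R R' : G →* GL ι k} (P : GL ι k)
    (h : ∀ g, R g = P * R' g * P⁻¹) (hR : Semisimple R) : Semisimple R' := by
  have hP : (P : Matrix ι ι k) * ((P⁻¹ : GL ι k) : Matrix ι ι k) = 1 := by
    rw [← Units.val_mul, mul_inv_cancel, Units.val_one]
  have hP' : ((P⁻¹ : GL ι k) : Matrix ι ι k) * (P : Matrix ι ι k) = 1 := by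
    rw [← Units.val_mul, inv_mul_cancel, Units.val_one]
  let e : (ι → k) ≃ₗ[k] (ι → k) := LinearEquiv.ofLinear (Matrix.toLin' (P : Matrix ι ι k))
    (Matrix.toLin' ((P⁻¹ : GL ι k) : Matrix ι ι k))
    (by rw [← Matrix.toLin'_mul, hP, Matrix.toLin'_one])
    (by rw [← Matrix.toLin'_mul, hP', Matrix.toLin'_one])
  have he : ∀ v, e v = (P : Matrix ι ι k) *ᵥ v := fun v => rfl
  have hst : ∀ W : Submodule k (ι → k), Stable R (W.map (e : (ι → k) →ₗ[k] (ι → k))) ↔ Stable R' W := by
    intro W
    have h1 : ∀ g v, (R g : Matrix ι ι k) *ᵥ e v = e ((R' g : Matrix ι ι k) *ᵥ v) := by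
      intro g v
      rw [he, he, Matrix.mulVec_mulVec, Matrix.mulVec_mulVec, h, Units.val_mul, Units.val_mul,
        mul_assoc, mul_assoc, hP', mul_one]
    constructor
    · intro hW g w hw
      obtain ⟨w', hw', h2⟩ := hW g (e w) ⟨w, hw, rfl⟩
      rw [h1] at h2
      have h3 : w' = (R' g : Matrix ι ι k) *ᵥ w := e.injective h2
      rw [← h3]
      exact hw'
    · rintro hW g _ ⟨w, hw, rfl⟩
      exact ⟨_, hW g w hw, (h1 g w).symm⟩
  intro W hW
  obtain ⟨C, hC, hc⟩ := hR _ ((hst W).2 hW)
  have hCe : C = (C.comap (e : (ι → k) →ₗ[k] (ι → k))).map (e : (ι → k) →ₗ[k] (ι → k)) :=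
    (Submodule.map_comap_eq_of_surjective e.surjective C).symm
  refine ⟨C.comap (e : (ι → k) →ₗ[k] (ι → k)), (hst _).1 (by rw [← hCe]; exact hC), ?_⟩
  have h1 := hc
  rw [hCe] at h1
  exact (Submodule.orderIsoMapComap e).isCompl_iff.2 h1

end ss

end Pool.Agent.Q65.TD
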