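import Pool.Agent.Q65.TD.Gal
import Pool.Agent.Q65.TD.SS

/-!
# Descent from a tensor product and tensor powers
-/

set_option autoImplicit false
set_option linter.unusedSectionVars false

namespace Pool.Agent.Q65.TD

open Matrix NumberField IsDedekindDomain Topology
open Pool.Agent.W401.Cheb (GK IsFrob IsInert)

section tp

variable {k : Type} [Field k] {n : ℕ}

/-- the matrix of the `a`-th tensor power -/
def tpm (a : ℕ) (A : Matrix (Fin n) (Fin n) k) : Matrix (Fin a → Fin n) (Fin a → Fin n) k :=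
  Matrix.of fun f g => ∏ t, A (f t) (g t)

theorem tpm_mul (a : ℕ) (A B : Matrix (Fin n) (Fin n) k) : tpm a (A * B) = tpm a A * tpm a B := by
  classical
  ext f g
  rw [Matrix.mul_apply]
  show ∏ t, (A * B) (f t) (g t) = ∑ h : Fin a → Fin n, (∏ t, A (f t) (h t)) * ∏ t, B (h t) (g t)
  simp only [Matrix.mul_apply, Finset.prod_univ_sum, Fintype.piFinset_univ, Finset.prod_mul_distrib]

theorem tpm_diag (a : ℕ) (d : Fin n → k) :
    tpm a (Matrix.diagonal d) = Matrix.diagonal fun f : Fin a → Fin n => ∏ t, d (f t) := by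
  classical
  ext f g
  show ∏ t, Matrix.diagonal d (f t) (g t) = _
  by_cases h : f = g
  · subst h
    rw [Matrix.diagonal_apply_eq]
    refine Finset.prod_congr rfl fun t _ => ?_
    rw [Matrix.diagonal_apply_eq]
  · rw [Matrix.diagonal_apply_ne _ h]
    obtain ⟨t, ht⟩ := Function.ne_iff.1 h
    exact Finset.prod_eq_zero (Finset.mem_univ t) (Matrix.diagonal_apply_ne _ ht)

theorem tpm_one (a : ℕ) : tpm a (1 : Matrix (Fin n) (Fin n) k) = 1 := by
  classical
  rw [← Matrix.diagonal_one, tpm_diag, ← Matrix.diagonal_one]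
  congr 1
  funext f
  simp

theorem tpm_trace (a : ℕ) (A : Matrix (Fin n) (Fin n) k) : (tpm a A).trace = A.trace ^ a := by
  classical
  unfold Matrix.trace
  have h1 : (∑ i, A.diag i) ^ a = ∏ _t : Fin a, ∑ i, A.diag i := by
    rw [Finset.prod_const, Finset.card_univ, Fintype.card_fin]
  rw [h1, Finset.prod_univ_sum, Fintype.piFinset_univ]
  rfl

/-- the `a`-th tensor power of an invertible matrix -/
def tp (a : ℕ) (A : GL (Fin n) k) : GL (Fin a → Fin n) k where
  val := tpm a (A : Matrix (Fin n) (Fin n) k)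
  inv := tpm a ((A⁻¹ : GL (Fin n) k) : Matrix (Fin n) (Fin n) k)
  val_inv := by rw [← tpm_mul, ← Units.val_mul, mul_inv_cancel, Units.val_one, tpm_one]
  inv_val := by rw [← tpm_mul, ← Units.val_mul, inv_mul_cancel, Units.val_one, tpm_one]

theorem tp_mul (a : ℕ) (A B : GL (Fin n) k) : tp a (A * B) = tp a A * tp a B := by
  apply Units.ext
  rw [Units.val_mul]
  show tpm a ((A * B : GL (Fin n) k) : Matrix (Fin n) (Fin n) k) = tpm a _ * tpm a _
  rw [Units.val_mul, tpm_mul]

theorem tp_one (a : ℕ) : tp a (1 : GL (Fin n) k) = 1 := by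
  apply Units.ext
  show tpm a ((1 : GL (Fin n) k) : Matrix (Fin n) (Fin n) k) = 1
  rw [Units.val_one, tpm_one]

/-- the `a`-th tensor power of a representation -/
def tpHom {G : Type*} [Group G] (a : ℕ) (r : G →* GL (Fin n) k) : G →* GL (Fin a → Fin n) k where
  toFun g := tp a (r g)
  map_one' := by rw [map_one, tp_one]
  map_mul' g h := by rw [map_mul, tp_mul]

theorem isConj_tp (a : ℕ) {A B : GL (Fin n) k} (h : IsConj A B) : IsConj (tp a A) (tp a B) := by
  obtain ⟨c, hc⟩ := isConj_iff.1 h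
  rw [isConj_iff]
  refine ⟨tp a c, ?_⟩
  have h1 : (tp a c)⁻¹ = tp a c⁻¹ := by
    rw [inv_eq_iff_mul_eq_one, ← tp_mul, mul_inv_cancel, tp_one]
  rw [h1, ← tp_mul, ← tp_mul, hc]

theorem tp_dg (a : ℕ) (α : Fin n → kˣ) : tp a (dg α) = dg fun f : Fin a → Fin n => ∏ t, α (f t) := by
  apply Units.ext
  show tpm a (Matrix.diagonal fun i => (α i : k)) = Matrix.diagonal fun f => ((∏ t, α (f t) : kˣ) : k)
  rw [tpm_diag]
  congr 1
  funext f
  rw [Units.coe_prod]

theorem tpHom_cont {G : Type*} [Group G] [TopologicalSpace G] [IsTopologicalGroup G]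
    [TopologicalSpace k] [IsTopologicalRing k] (a : ℕ) {r : G →* GL (Fin n) k} (hr : Continuous r) :
    Continuous (tpHom a r) := by
  have h1 : Continuous fun g => ((tpHom a r g : GL (Fin a → Fin n) k) :
      Matrix (Fin a → Fin n) (Fin a → Fin n) k) := by
    refine continuous_matrix fun p q => ?_
    show Continuous fun g => ∏ t, (r g : Matrix (Fin n) (Fin n) k) (p t) (q t)
    exact continuous_finsetProd _ fun t _ => (Units.continuous_val.comp hr).matrix_elem _ _
  rw [Units.continuous_iff]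
  refine ⟨h1, ?_⟩
  have h2 : Continuous fun g => ((tpHom a r g⁻¹ : GL (Fin a → Fin n) k) :
      Matrix (Fin a → Fin n) (Fin a → Fin n) k) := h1.comp continuous_inv
  refine h2.congr fun g => ?_
  rw [map_inv]

end tp

section near

variable {K : Type} [Field K] [NumberField K] {k : Type} [Field k] [TopologicalSpace k]
  [IsTopologicalRing k] [T2Space k] [CharZero k]

/-- two functions with equal `a`-th powers on `N` which agree at `1` agree on an open subgroup -/
theorem near_one {X Y : GK K → k} (hX : Continuous X) (hY : Continuous Y) {c : k} (hc : c ≠ 0)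
    (hX1 : X 1 = c) (hY1 : Y 1 = c) {a : ℕ} (ha : 0 < a) (N : Set (GK K))
    (hN : ∀ x ∈ N, X x ^ a = Y x ^ a) :
    ∃ V : Subgroup (GK K), V.Normal ∧ IsOpen (V : Set (GK K)) ∧ ∀ x ∈ V, x ∈ N → X x = Y x := by
  have hcont : Continuous fun x => ∑ i ∈ Finset.range a, X x ^ i * Y x ^ (a - 1 - i) :=
    continuous_finsetSum _ fun i _ => (hX.pow i).mul (hY.pow _)
  have hW : IsOpen {x : GK K | ∑ i ∈ Finset.range a, X x ^ i * Y x ^ (a - 1 - i) ≠ 0} :=
    isOpen_ne_fun hcont continuous_const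
  have h1W : (1 : GK K) ∈ {x : GK K | ∑ i ∈ Finset.range a, X x ^ i * Y x ^ (a - 1 - i) ≠ 0} := by
    show ∑ i ∈ Finset.range a, X 1 ^ i * Y 1 ^ (a - 1 - i) ≠ 0
    have : ∀ i ∈ Finset.range a, X 1 ^ i * Y 1 ^ (a - 1 - i) = c ^ (a - 1) := by
      intro i hi
      rw [Finset.mem_range] at hi
      rw [hX1, hY1, ← pow_add]
      congr 1
      omega
    rw [Finset.sum_congr rfl this, Finset.sum_const, Finset.card_range, nsmul_eq_mul]
    exact mul_ne_zero (Nat.cast_ne_zero.2 ha.ne') (pow_ne_zero _ hc)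
  obtain ⟨U, hU⟩ := ProfiniteGrp.exist_openNormalSubgroup_sub_open_nhds_of_one hW h1W
  refine ⟨U.toSubgroup, U.isNormal', U.isOpen', fun x hx hxN => ?_⟩
  have h2 := hU hx
  have h3 := geom_sum₂_mul (X x) (Y x) a
  rw [hN x hxN, sub_self] at h3
  exact sub_eq_zero.1 ((mul_eq_zero.1 h3).resolve_left h2)

end near

end Pool.Agent.Q65.TD
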