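import Pool.Agent.Q65.TD.Pow

/-!
# Descent from a tensor product and tensor powers: the theorem
-/

set_option autoImplicit false
set_option linter.unusedSectionVars false

namespace Pool.Agent.Q65.TD

open Matrix NumberField IsDedekindDomain Topology
open Pool.Agent.W401.Cheb (GK IsFrob IsInert)

section main

variable {K : Type} [Field K] [NumberField K] {k : Type} [Field k] [TopologicalSpace k]
  [IsTopologicalRing k] [T2Space k] [CharZero k] {S : Set (HeightOneSpectrum (𝓞 K))} {n : ℕ}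
  {α : HeightOneSpectrum (𝓞 K) → Fin n → kˣ}

/-- the relation between the traces of `Π × σ₀` and of the tensor power of `Π` -/
theorem trace_rel_pow (hS : S.Finite) {m₀ : ℕ} {β₀ : HeightOneSpectrum (𝓞 K) → Fin m₀ → kˣ}
    {ρ₀ : GK K →* GL (Fin m₀) k} (hρ₀ : Corr S β₀ ρ₀) {R₀ : GK K →* GL (Fin n × Fin m₀) k}
    (hR₀ : Corr S (fun v p => α v p.1 * β₀ v p.2) R₀) {a : ℕ} {R : GK K →* GL (Fin a → Fin n) k}
    (hR : Corr S (fun v f => ∏ t, α v (f t)) R) (x : GK K) :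
    (R₀ x : Matrix (Fin n × Fin m₀) (Fin n × Fin m₀) k).trace ^ a =
      (R x : Matrix (Fin a → Fin n) (Fin a → Fin n) k).trace *
        (ρ₀ x : Matrix (Fin m₀) (Fin m₀) k).trace ^ a := by
  refine cheb_eq hS (f₁ := fun x => (R₀ x : Matrix (Fin n × Fin m₀) (Fin n × Fin m₀) k).trace ^ a)
    (f₂ := fun x => (R x : Matrix (Fin a → Fin n) (Fin a → Fin n) k).trace *
        (ρ₀ x : Matrix (Fin m₀) (Fin m₀) k).trace ^ a)
      ((cont_trace hR₀.continuous).pow a)
      ((cont_trace hR.continuous).mul ((cont_trace hρ₀.continuous).pow a)) ?_ x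
  intro v hv σ hσ
  have e1 := hR₀.trace_one hv hσ
  have e2 := hR.trace_one hv hσ
  have e3 := hρ₀.trace_one hv hσ
  rw [e1, e2, e3, Fintype.sum_prod_type]
  have h1 : ∑ x, ∑ y, ((α v x * β₀ v y : kˣ) : k) = (∑ x, (α v x : k)) * ∑ y, (β₀ v y : k) := by
    rw [Finset.sum_mul_sum]
    simp only [Units.val_mul]
  have h2 : ∑ f : Fin a → Fin n, ((∏ t, α v (f t) : kˣ) : k) = (∑ x, (α v x : k)) ^ a := by
    have h3 : (∑ x, (α v x : k)) ^ a = ∏ _t : Fin a, ∑ i, (α v i : k) := by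
      rw [Finset.prod_const, Finset.card_univ, Fintype.card_fin]
    rw [h3, Finset.prod_univ_sum, Fintype.piFinset_univ]
    refine Finset.sum_congr rfl fun f _ => ?_
    rw [Units.coe_prod]
  rw [h1, h2, mul_pow]

theorem Corr.trace_pow_tp {a : ℕ} {R : GK K →* GL (Fin a → Fin n) k}
    (hR : Corr S (fun v f => ∏ t, α v (f t)) R) {v : HeightOneSpectrum (𝓞 K)} (hv : v ∉ S)
    {σ : GK K} (hσ : IsFrob v σ) (j : ℕ) :
    (R (σ⁻¹ ^ j) : Matrix (Fin a → Fin n) (Fin a → Fin n) k).trace = (∑ i, (α v i : k) ^ j) ^ a := by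
  rw [hR.trace_pow hv hσ]
  have h3 : (∑ x, (α v x : k) ^ j) ^ a = ∏ _t : Fin a, ∑ i, (α v i : k) ^ j := by
    rw [Finset.prod_const, Finset.card_univ, Fintype.card_fin]
  rw [h3, Finset.prod_univ_sum, Fintype.piFinset_univ]
  refine Finset.sum_congr rfl fun f _ => ?_
  rw [Units.coe_prod, Finset.prod_pow]

/-- coprime powers determine an element -/
theorem eq_of_pow {x y : k} {a a' : ℕ} (hc : a.Coprime a') (ha : 0 < a)
    (h : x ^ a = y ^ a) (h' : x ^ a' = y ^ a') : x = y := by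
  by_cases hy : y = 0
  · subst hy
    rw [zero_pow ha.ne'] at h
    exact pow_eq_zero_iff ha.ne' |>.1 h
  · have h1 : (x / y) ^ a = 1 := by rw [div_pow, h, div_self (pow_ne_zero _ hy)]
    have h2 : (x / y) ^ a' = 1 := by rw [div_pow, h', div_self (pow_ne_zero _ hy)]
    have h3 : orderOf (x / y) ∣ Nat.gcd a a' :=
      Nat.dvd_gcd (orderOf_dvd_of_pow_eq_one h1) (orderOf_dvd_of_pow_eq_one h2)
    rw [hc, Nat.dvd_one, orderOf_eq_one_iff] at h3
    rwa [div_eq_one_iff_eq hy] at h3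

/-- **Descent from one tensor product and two tensor powers.** -/
theorem power_descent [IsAlgClosed k] (hS : S.Finite) (hn : 0 < n)
    {m₀ : ℕ} (hm₀ : 0 < m₀) {β₀ : HeightOneSpectrum (𝓞 K) → Fin m₀ → kˣ}
    {ρ₀ : GK K →* GL (Fin m₀) k} (hρ₀ : Corr S β₀ ρ₀)
    {R₀ : GK K →* GL (Fin n × Fin m₀) k} (hR₀ : Corr S (fun v p => α v p.1 * β₀ v p.2) R₀)
    (hss : Semisimple R₀) {a a' : ℕ} (ha : 0 < a) (hc : a.Coprime a')
    {R : GK K →* GL (Fin a → Fin n) k} (hR : Corr S (fun v f => ∏ t, α v (f t)) R)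
    {R' : GK K →* GL (Fin a' → Fin n) k} (hR' : Corr S (fun v f => ∏ t, α v (f t)) R')
    (hirr : ∀ V : Subgroup (GK K), V.Normal → IsOpen (V : Set (GK K)) →
      AbsIrrOn ρ₀ (V ⊓ (R.ker ⊓ R'.ker))) :
    ∃ r : GK K →* GL (Fin n) k, Corr S α r ∧ (∃ P, ∀ g, R₀ g = P * kr (r g) (ρ₀ g) * P⁻¹) ∧
      ∃ V : Subgroup (GK K), V.Normal ∧ IsOpen (V : Set (GK K)) ∧ V ⊓ R.ker ≤ r.ker := by
  classical
  have hrel := trace_rel_pow hS hρ₀ hR₀ hR
  have hrel' := trace_rel_pow hS hρ₀ hR₀ hR'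
  have hc0 : ((n : k) * m₀) ≠ 0 :=
    mul_ne_zero (Nat.cast_ne_zero.2 hn.ne') (Nat.cast_ne_zero.2 hm₀.ne')
  obtain ⟨V, hVn, hVo, hV⟩ := near_one (X := fun x =>
      (R₀ x : Matrix (Fin n × Fin m₀) (Fin n × Fin m₀) k).trace)
    (Y := fun x => (n : k) * (ρ₀ x : Matrix (Fin m₀) (Fin m₀) k).trace)
    (cont_trace hR₀.continuous) (continuous_const.mul (cont_trace hρ₀.continuous)) hc0
    (by
      rw [map_one, Units.val_one, Matrix.trace_one, Fintype.card_prod, Fintype.card_fin,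
        Fintype.card_fin]
      push_cast
      rfl)
    (by
      rw [map_one, Units.val_one, Matrix.trace_one, Fintype.card_fin]) ha (R.ker : Set (GK K))
    (by
      intro x hx
      have h1 := hrel x
      rw [R.mem_ker.1 hx, Units.val_one, Matrix.trace_one, Fintype.card_fun, Fintype.card_fin,
        Fintype.card_fin] at h1
      rw [h1, mul_pow]
      push_cast
      rfl)
  set N : Subgroup (GK K) := V ⊓ R.ker with hN
  have hNn : N.Normal := by
    have := hVn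
    infer_instance
  have hirrN : AbsIrrOn ρ₀ N := (hirr V hVn hVo).mono (inf_le_inf_left _ inf_le_left)
  obtain ⟨U, P, hP, hU⟩ := descend hm₀ (fun j hj _ => Nat.cast_ne_zero.2 (by omega)) R₀ hss ρ₀ N
    hirrN.absIrr (fun x hx => hV x hx.1 hx.2)
  have hUtr : ∀ g, (R₀ g : Matrix (Fin n × Fin m₀) (Fin n × Fin m₀) k).trace =
      (U g : Matrix (Fin n) (Fin n) k).trace * (ρ₀ g : Matrix (Fin m₀) (Fin m₀) k).trace := by
    intro g
    have h1 : IsConj (R₀ g) (kr (U g) (ρ₀ g)) := by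
      rw [isConj_iff]
      exact ⟨P⁻¹, by rw [hP]; group⟩
    rw [trace_conj h1, kr_trace]
  have key : ∀ (b : ℕ) (T : GK K →* GL (Fin b → Fin n) k), 
      (∀ x, (R₀ x : Matrix (Fin n × Fin m₀) (Fin n × Fin m₀) k).trace ^ b =
      (T x : Matrix (Fin b → Fin n) (Fin b → Fin n) k).trace *
        (ρ₀ x : Matrix (Fin m₀) (Fin m₀) k).trace ^ b) → R.ker ⊓ R'.ker ≤ T.ker →
      ∀ g, (T g : Matrix (Fin b → Fin n) (Fin b → Fin n) k).trace =
        (U g : Matrix (Fin n) (Fin n) k).trace ^ b := by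
    intro b T hT hle g
    by_contra hne
    have h1 := cancel hm₀ ρ₀ _ (hirr V hVn hVo).absIrr g 1 (by
      rintro x ⟨hx1, hx2⟩
      rw [one_mul]
      by_contra h0
      have h2 := hT (g * x)
      have hxN : x ∈ N := ⟨hx1, hx2.1⟩
      rw [hUtr, map_mul U, hU x hxN, mul_one, map_mul T, T.mem_ker.1 (hle hx2), mul_one, mul_pow] at h2
      exact hne (mul_right_cancel₀ (pow_ne_zero _ h0) h2).symm)
    exact one_ne_zero h1
  have hk := key a R hrel inf_le_left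
  have hk' := key a' R' hrel' inf_le_right
  refine ⟨U, ⟨descend_cont hm₀ hR₀.continuous hρ₀.continuous hP, fun v hv τ hτ => ?_,
    fun v hv σ hσ => ?_⟩, ⟨P, hP⟩, V, hVn, hVo, fun x hx => U.mem_ker.2 (hU x hx)⟩
  · have h1 := hP τ
    rw [hR₀.unramified v hv τ hτ, hρ₀.unramified v hv τ hτ] at h1
    have h2 : kr (U τ) (1 : GL (Fin m₀) k) = kr 1 1 := by
      rw [kr_one]
      have : kr (U τ) (1 : GL (Fin m₀) k) = P⁻¹ * (P * kr (U τ) (1 : GL (Fin m₀) k) * P⁻¹) * P := by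
        group
      rw [this, ← h1]
      group
    exact kr_inj hm₀ h2
  · have hker : kr (U σ)⁻¹ (ρ₀ σ)⁻¹ = P⁻¹ * (R₀ σ)⁻¹ * P := by
      rw [← kr_inv, hP]
      group
    have hss1 : Module.End.IsSemisimple
        (Matrix.toLin' (((U σ)⁻¹ : GL (Fin n) k) : Matrix (Fin n) (Fin n) k)) := by
      refine ss_factor hm₀ (b := (ρ₀ σ)⁻¹) (γ := fun p => α v p.1 * β₀ v p.2) ?_
        (hρ₀.frobenius v hv σ hσ)
      refine IsConj.trans ?_ (hR₀.frobenius v hv σ hσ)
      rw [hker, isConj_iff]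
      exact ⟨P, by group⟩
    refine conj_dg_of_ss _ hss1 _ ?_
    rw [← charpoly_dg]
    refine charpoly_of_tr (fun j h1 h2 => Nat.cast_ne_zero.2 (by omega)) _ _ fun j h1 h2 => ?_
    have hα := dg_pow_trace (α v) j
    rw [Units.val_pow_eq_pow_val] at hα
    rw [hα]
    have hU' : (((U σ)⁻¹ : GL (Fin n) k) : Matrix (Fin n) (Fin n) k) ^ j =
        (U (σ⁻¹ ^ j) : Matrix (Fin n) (Fin n) k) := by
      rw [map_pow, map_inv, Units.val_pow_eq_pow_val]
    rw [hU']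
    refine eq_of_pow hc ha ?_ ?_
    · rw [← hk, hR.trace_pow_tp hv hσ]
    · rw [← hk', hR'.trace_pow_tp hv hσ]

end main

end Pool.Agent.Q65.TD
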