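import Pool.Agent.Q65.TD.Gal
import Pool.Agent.Q65.TD.SS

/-!
# Tensor descent for residual Galois representations
-/

set_option autoImplicit false
set_option linter.unusedSectionVars false

namespace Pool.Agent.Q65.TD

open Matrix NumberField IsDedekindDomain Topology Polynomial
open Pool.Agent.W401.Cheb (GK IsFrob IsInert)

/-- the characteristic polynomial determines the traces of the powers -/
theorem tr_of_charpoly {k : Type} [Field k] {ι : Type} [Fintype ι] [DecidableEq ι]
    {A B : Matrix ι ι k} (h : A.charpoly = B.charpoly) (j : ℕ) : (A ^ j).trace = (B ^ j).trace := by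
  have h1 : A.charpolyRev = B.charpolyRev := by
    rw [← Matrix.reverse_charpoly, ← Matrix.reverse_charpoly, h]
  induction j using Nat.strong_induction_on with
  | _ j ih =>
    rcases j with _ | j
    · rw [pow_zero, pow_zero]
    · have hA := Pool.Agent.TH658.Eq.newton A j
      have hB := Pool.Agent.TH658.Eq.newton B j
      rw [h1, hB, neg_inj] at hA
      have hmem : ((0, j) : ℕ × ℕ) ∈ Finset.HasAntidiagonal.antidiagonal j :=
        Finset.HasAntidiagonal.mem_antidiagonal.2 (by simp)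
      rw [← Finset.add_sum_erase _ _ hmem, ← Finset.add_sum_erase _ _ hmem] at hA
      have h2 : ∑ p ∈ (Finset.HasAntidiagonal.antidiagonal j).erase (0, j),
          B.charpolyRev.coeff p.1 * (B ^ (p.2 + 1)).trace =
          ∑ p ∈ (Finset.HasAntidiagonal.antidiagonal j).erase (0, j),
          B.charpolyRev.coeff p.1 * (A ^ (p.2 + 1)).trace := by
        refine Finset.sum_congr rfl fun p hp => ?_
        rw [Finset.mem_erase] at hp
        have h3 := Finset.HasAntidiagonal.mem_antidiagonal.mp hp.2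
        have h4 : p.1 ≠ 0 := fun h0 => hp.1 (Prod.ext h0 (by dsimp only; omega))
        rw [ih (p.2 + 1) (by omega)]
      rw [h2] at hA
      have h5 := add_right_cancel hA
      have h6 : B.charpolyRev.coeff 0 = 1 := by
        rw [coeff_zero_eq_eval_zero, Matrix.eval_charpolyRev]
      dsimp only at h5
      rw [h6, one_mul, one_mul] at h5
      exact h5.symm

/-- the traces of the powers determine the characteristic polynomial -/
theorem charpoly_of_tr' {k : Type} [Field k] {ι : Type} [Fintype ι] [DecidableEq ι]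
    (hn : ∀ j : ℕ, 1 ≤ j → j ≤ Fintype.card ι → (j : k) ≠ 0) (A B : Matrix ι ι k)
    (h : ∀ j : ℕ, 1 ≤ j → j ≤ Fintype.card ι → (A ^ j).trace = (B ^ j).trace) :
    A.charpoly = B.charpoly := by
  have hdeg : ∀ (M : Matrix ι ι k) (j : ℕ), Fintype.card ι < j → M.charpolyRev.coeff j = 0 := by
    intro M j hj
    rw [← Matrix.reverse_charpoly]
    apply coeff_eq_zero_of_natDegree_lt
    refine lt_of_le_of_lt (reverse_natDegree_le _) ?_
    rwa [Matrix.charpoly_natDegree_eq_dim]
  have h1 : ∀ j, A.charpolyRev.coeff j = B.charpolyRev.coeff j := by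
    intro j
    induction j using Nat.strong_induction_on with
    | _ j ih =>
      rcases j with _ | j
      · rw [coeff_zero_eq_eval_zero, coeff_zero_eq_eval_zero, Matrix.eval_charpolyRev,
          Matrix.eval_charpolyRev]
      · by_cases hj : Fintype.card ι < j + 1
        · rw [hdeg _ _ hj, hdeg _ _ hj]
        · have hk : ((j : k) + 1) ≠ 0 := by
            have := hn (j + 1) (by omega) (by omega)
            push_cast at this
            exact this
          refine mul_right_cancel₀ hk ?_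
          rw [Pool.Agent.TH658.Eq.newton, Pool.Agent.TH658.Eq.newton]
          congr 1
          refine Finset.sum_congr rfl fun p hp => ?_
          have h3 := (Finset.HasAntidiagonal.mem_antidiagonal.mp hp)
          rw [ih p.1 (by omega), h _ (by omega) (by omega)]
  have h2 : A.charpolyRev = B.charpolyRev := Polynomial.ext h1
  rw [← Matrix.reverse_charpoly, ← Matrix.reverse_charpoly] at h2
  have hd : A.charpoly.natDegree = B.charpoly.natDegree := by
    rw [Matrix.charpoly_natDegree_eq_dim, Matrix.charpoly_natDegree_eq_dim]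
  unfold reverse at h2
  rw [hd] at h2
  have h4 := congrArg (reflect B.charpoly.natDegree) h2
  rw [reflect_reflect, reflect_reflect] at h4
  exact h4

/-- the characteristic polynomial of a Kronecker product -/
theorem charpoly_kr {k : Type} [Field k] {n m : ℕ}
    (hn : ∀ j : ℕ, 1 ≤ j → j ≤ n * m → (j : k) ≠ 0) {A A' : GL (Fin n) k} {B B' : GL (Fin m) k}
    (h : (A : Matrix (Fin n) (Fin n) k).charpoly = (A' : Matrix (Fin n) (Fin n) k).charpoly)
    (h' : (B : Matrix (Fin m) (Fin m) k).charpoly = (B' : Matrix (Fin m) (Fin m) k).charpoly) :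
    ((kr A B : GL (Fin n × Fin m) k) : Matrix (Fin n × Fin m) (Fin n × Fin m) k).charpoly =
    ((kr A' B' : GL (Fin n × Fin m) k) : Matrix (Fin n × Fin m) (Fin n × Fin m) k).charpoly := by
  have hkr : ∀ (A : GL (Fin n) k) (B : GL (Fin m) k) (j : ℕ),
      (((kr A B : GL (Fin n × Fin m) k) : Matrix (Fin n × Fin m) (Fin n × Fin m) k) ^ j).trace =
      ((A : Matrix (Fin n) (Fin n) k) ^ j).trace * ((B : Matrix (Fin m) (Fin m) k) ^ j).trace := by
    intro A B j
    rw [← Units.val_pow_eq_pow_val, kr_pow, kr_trace, Units.val_pow_eq_pow_val,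
      Units.val_pow_eq_pow_val]
  apply charpoly_of_tr'
  · rwa [Fintype.card_prod, Fintype.card_fin, Fintype.card_fin]
  · intro j _ _
    rw [hkr, hkr, tr_of_charpoly h, tr_of_charpoly h']

section defs

variable {K : Type} [Field K] [NumberField K] {k : Type} [Field k] [TopologicalSpace k]
  {ι : Type} [Fintype ι] [DecidableEq ι]

/-- The representation `r` of the absolute Galois group of `K` corresponds to the family of
characteristic polynomials of the matrices `a v` outside `S`: it is continuous, trivial on the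
inertia subgroups at `v ∉ S`, and the characteristic polynomial of the image of every geometric
Frobenius element at `v ∉ S` is the characteristic polynomial of `a v`. -/
structure CorrP (S : Set (HeightOneSpectrum (𝓞 K)))
    (a : HeightOneSpectrum (𝓞 K) → GL ι k) (r : GK K →* GL ι k) : Prop where
  continuous : Continuous r
  unramified : ∀ v ∉ S, ∀ τ : GK K, IsInert v τ → r τ = 1
  frobenius : ∀ v ∉ S, ∀ σ : GK K, IsFrob v σ →
    (((r σ)⁻¹ : GL ι k) : Matrix ι ι k).charpoly = (a v : Matrix ι ι k).charpoly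

end defs

section main

variable {K : Type} [Field K] [NumberField K] {k : Type} [Field k] [TopologicalSpace k]
  [IsTopologicalRing k] [T2Space k] {S : Set (HeightOneSpectrum (𝓞 K))}

theorem CorrP.trace_pow {ι : Type} [Fintype ι] [DecidableEq ι]
    {a : HeightOneSpectrum (𝓞 K) → GL ι k} {r : GK K →* GL ι k} (h : CorrP S a r)
    {v : HeightOneSpectrum (𝓞 K)} (hv : v ∉ S) {σ : GK K} (hσ : IsFrob v σ) (j : ℕ) :
    (r (σ⁻¹ ^ j) : Matrix ι ι k).trace = ((a v : Matrix ι ι k) ^ j).trace := by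
  rw [map_pow, map_inv, Units.val_pow_eq_pow_val]
  exact tr_of_charpoly (h.frobenius v hv σ hσ) j

theorem CorrP.trace_one {ι : Type} [Fintype ι] [DecidableEq ι]
    {a : HeightOneSpectrum (𝓞 K) → GL ι k} {r : GK K →* GL ι k} (h : CorrP S a r)
    {v : HeightOneSpectrum (𝓞 K)} (hv : v ∉ S) {σ : GK K} (hσ : IsFrob v σ) :
    (r σ⁻¹ : Matrix ι ι k).trace = (a v : Matrix ι ι k).trace := by
  have := h.trace_pow hv hσ 1
  simpa using this

variable {n : ℕ} {a : HeightOneSpectrum (𝓞 K) → GL (Fin n) k}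

/-- **Tensor descent for residual Galois representations.** -/
theorem residual_descent (hS : S.Finite)
    {m₀ : ℕ} (hm₀ : 0 < m₀) (hbig : ∀ j : ℕ, 1 ≤ j → j ≤ n * m₀ → (j : k) ≠ 0)
    {b₀ : HeightOneSpectrum (𝓞 K) → GL (Fin m₀) k} {ρ₀ : GK K →* GL (Fin m₀) k}
    (hρ₀ : CorrP S b₀ ρ₀)
    {R₀ : GK K →* GL (Fin n × Fin m₀) k} (hR₀ : CorrP S (fun v => kr (a v) (b₀ v)) R₀)
    (hss : Semisimple R₀)
    {ι : Type} {m : ι → ℕ} {b : ∀ s, HeightOneSpectrum (𝓞 K) → GL (Fin (m s)) k}
    {ρ : ∀ s, GK K →* GL (Fin (m s)) k} (hρ : ∀ s, CorrP S (b s) (ρ s))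
    {R : ∀ s, GK K →* GL (Fin n × Fin (m s)) k}
    (hR : ∀ s, CorrP S (fun v => kr (a v) (b s v)) (R s))
    (s₁ : ι) (hs₁ : (m s₁ : k) ≠ 0)
    (hirr : ∀ s, AbsIrrOn ρ₀ ((R s₁).ker ⊓ (ρ s₁).ker ⊓ ((R s).ker ⊓ (ρ s).ker))) :
    ∃ r : GK K →* GL (Fin n) k, Continuous r ∧ (∀ v ∉ S, ∀ τ : GK K, IsInert v τ → r τ = 1) ∧
      (∃ P, ∀ g, R₀ g = P * kr (r g) (ρ₀ g) * P⁻¹) ∧
      (R s₁).ker ⊓ (ρ s₁).ker ≤ r.ker ∧
      ∀ v ∉ S, (∀ j : ℕ, 1 ≤ j → j ≤ n → ((b₀ v : Matrix (Fin m₀) (Fin m₀) k) ^ j).trace ≠ 0 ∨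
        ∃ s, ((b s v : Matrix (Fin (m s)) (Fin (m s)) k) ^ j).trace ≠ 0) → ∀ σ, IsFrob v σ →
          (((r σ)⁻¹ : GL (Fin n) k) : Matrix (Fin n) (Fin n) k).charpoly =
            (a v : Matrix (Fin n) (Fin n) k).charpoly := by
  classical
  have hkr : ∀ (m : ℕ) (A : GL (Fin n) k) (B : GL (Fin m) k) (j : ℕ),
      (((kr A B : GL (Fin n × Fin m) k) : Matrix (Fin n × Fin m) (Fin n × Fin m) k) ^ j).trace =
      ((A : Matrix (Fin n) (Fin n) k) ^ j).trace * ((B : Matrix (Fin m) (Fin m) k) ^ j).trace := by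
    intro m A B j
    rw [← Units.val_pow_eq_pow_val, kr_pow, kr_trace, Units.val_pow_eq_pow_val,
      Units.val_pow_eq_pow_val]
  set N₁ : Subgroup (GK K) := (R s₁).ker ⊓ (ρ s₁).ker with hN₁
  have hirr₁ : AbsIrrOn ρ₀ N₁ := (hirr s₁).mono inf_le_left
  have hrel : ∀ s g, (R s g : Matrix (Fin n × Fin (m s)) (Fin n × Fin (m s)) k).trace *
        (ρ₀ g : Matrix (Fin m₀) (Fin m₀) k).trace =
      (R₀ g : Matrix (Fin n × Fin m₀) (Fin n × Fin m₀) k).trace *
        (ρ s g : Matrix (Fin (m s)) (Fin (m s)) k).trace := by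
    intro s g
    refine cheb_eq hS (f₁ := fun x => (R s x : Matrix (Fin n × Fin (m s)) (Fin n × Fin (m s)) k).trace
        * (ρ₀ x : Matrix (Fin m₀) (Fin m₀) k).trace) (f₂ := fun x =>
      (R₀ x : Matrix (Fin n × Fin m₀) (Fin n × Fin m₀) k).trace *
        (ρ s x : Matrix (Fin (m s)) (Fin (m s)) k).trace)
      ((cont_trace (hR s).continuous).mul (cont_trace hρ₀.continuous))
      ((cont_trace hR₀.continuous).mul (cont_trace (hρ s).continuous)) ?_ g
    intro v hv σ hσ
    have e1 := (hR s).trace_one hv hσ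
    have e2 := hR₀.trace_one hv hσ
    have e3 := hρ₀.trace_one hv hσ
    have e4 := (hρ s).trace_one hv hσ
    rw [kr_trace] at e1 e2
    rw [e1, e2, e3, e4]
    ring
  have htr : ∀ x ∈ N₁, (R₀ x : Matrix (Fin n × Fin m₀) (Fin n × Fin m₀) k).trace =
      n * (ρ₀ x : Matrix (Fin m₀) (Fin m₀) k).trace := by
    rintro x ⟨h1, h2⟩
    have h3 := hrel s₁ x
    rw [(R s₁).mem_ker.1 h1, (ρ s₁).mem_ker.1 h2, Units.val_one, Units.val_one, Matrix.trace_one,
      Matrix.trace_one, Fintype.card_prod, Fintype.card_fin, Fintype.card_fin] at h3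
    push_cast at h3
    apply mul_right_cancel₀ hs₁
    rw [← h3]
    ring
  obtain ⟨U, P, hP, hU⟩ := descend hm₀ hbig R₀ hss ρ₀ N₁ hirr₁.absIrr htr
  have hUtr : ∀ g, (R₀ g : Matrix (Fin n × Fin m₀) (Fin n × Fin m₀) k).trace =
      (U g : Matrix (Fin n) (Fin n) k).trace * (ρ₀ g : Matrix (Fin m₀) (Fin m₀) k).trace := by
    intro g
    have h1 : IsConj (R₀ g) (kr (U g) (ρ₀ g)) := by
      rw [isConj_iff]
      exact ⟨P⁻¹, by rw [hP]; group⟩
    rw [trace_conj h1, kr_trace]
  have htrs : ∀ s g, (R s g : Matrix (Fin n × Fin (m s)) (Fin n × Fin (m s)) k).trace =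
      (U g : Matrix (Fin n) (Fin n) k).trace *
        (ρ s g : Matrix (Fin (m s)) (Fin (m s)) k).trace := by
    intro s g
    rw [← sub_eq_zero]
    refine cancel hm₀ ρ₀ _ (hirr s).absIrr g _ ?_
    rintro x ⟨hx1, hx2, hx3⟩
    have h1 := hrel s (g * x)
    rw [hUtr, map_mul (R s), map_mul (ρ s), map_mul U, (R s).mem_ker.1 hx2, (ρ s).mem_ker.1 hx3,
      hU x hx1, mul_one, mul_one, mul_one] at h1
    rw [sub_mul, h1]
    ring
  refine ⟨U, descend_cont hm₀ hR₀.continuous hρ₀.continuous hP, fun v hv τ hτ => ?_, ⟨P, hP⟩,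
    fun x hx => U.mem_ker.2 (hU x hx), fun v hv hrich σ hσ => ?_⟩
  · have h1 := hP τ
    rw [hR₀.unramified v hv τ hτ, hρ₀.unramified v hv τ hτ] at h1
    have h2 : kr (U τ) (1 : GL (Fin m₀) k) = kr 1 1 := by
      rw [kr_one]
      have : kr (U τ) (1 : GL (Fin m₀) k) = P⁻¹ * (P * kr (U τ) (1 : GL (Fin m₀) k) * P⁻¹) * P := by
        group
      rw [this, ← h1]
      group
    exact kr_inj hm₀ h2
  · have hm : n ≤ n * m₀ := Nat.le_mul_of_pos_right n hm₀
    refine charpoly_of_tr (fun j h1 h2 => hbig j h1 (h2.trans hm)) _ _ fun j h1 h2 => ?_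
    have hU' : (((U σ)⁻¹ : GL (Fin n) k) : Matrix (Fin n) (Fin n) k) ^ j =
        (U (σ⁻¹ ^ j) : Matrix (Fin n) (Fin n) k) := by
      rw [map_pow, map_inv, Units.val_pow_eq_pow_val]
    rw [hU']
    rcases hrich j h1 h2 with h | ⟨s, h⟩
    · have h3 := hUtr (σ⁻¹ ^ j)
      rw [hR₀.trace_pow hv hσ, hρ₀.trace_pow hv hσ, hkr] at h3
      exact (mul_right_cancel₀ h h3).symm
    · have h3 := htrs s (σ⁻¹ ^ j)
      rw [(hR s).trace_pow hv hσ, (hρ s).trace_pow hv hσ, hkr] at h3
      exact (mul_right_cancel₀ h h3).symm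

end main

end Pool.Agent.Q65.TD
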