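import Pool.Agent.Q65.TD.Pow
import Pool.Agent.Q65.TD.Res

/-!
# Descent from one tensor product and tensor powers, residual representations
-/

set_option autoImplicit false
set_option linter.unusedSectionVars false

namespace Pool.Agent.Q65.TD

open Matrix NumberField IsDedekindDomain Topology Polynomial
open Pool.Agent.W401.Cheb (GK IsFrob IsInert)

section tp2

variable {k : Type} [Field k] {n : ℕ}

theorem tpm_pow (p : ℕ) (A : Matrix (Fin n) (Fin n) k) (j : ℕ) : tpm p A ^ j = tpm p (A ^ j) := by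
  induction j with
  | zero => rw [pow_zero, pow_zero, tpm_one]
  | succ j ih => rw [pow_succ, pow_succ, ih, tpm_mul]

theorem tp_pow_trace (p : ℕ) (A : GL (Fin n) k) (j : ℕ) :
    (((tp p A : GL (Fin p → Fin n) k) : Matrix (Fin p → Fin n) (Fin p → Fin n) k) ^ j).trace =
      (((A : Matrix (Fin n) (Fin n) k) ^ j).trace) ^ p := by
  show (tpm p (A : Matrix (Fin n) (Fin n) k) ^ j).trace = _
  rw [tpm_pow, tpm_trace]

/-- powers with exponents of greatest common divisor `1` determine an element -/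
theorem eq_of_pow' {x y : k} {κ : Type} {p : κ → ℕ} (hp : ∀ d : ℕ, (∀ i, d ∣ p i) → d = 1)
    (h : ∀ i, x ^ p i = y ^ p i) : x = y := by
  have hpos : ∃ i, p i ≠ 0 := by
    by_contra h0
    push_neg at h0
    exact absurd (hp 0 fun i => by rw [h0]) (by norm_num)
  by_cases hy : y = 0
  · subst hy
    obtain ⟨i, hi⟩ := hpos
    have h1 := h i
    rw [zero_pow hi] at h1
    exact pow_eq_zero_iff hi |>.1 h1
  · have h1 : orderOf (x / y) = 1 := hp _ fun i =>
      orderOf_dvd_of_pow_eq_one (by rw [div_pow, h, div_self (pow_ne_zero _ hy)])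
    rw [orderOf_eq_one_iff] at h1
    rwa [div_eq_one_iff_eq hy] at h1

end tp2

section main

variable {K : Type} [Field K] [NumberField K] {k : Type} [Field k] [TopologicalSpace k]
  [IsTopologicalRing k] [T2Space k] {S : Set (HeightOneSpectrum (𝓞 K))} {n : ℕ}
  {a : HeightOneSpectrum (𝓞 K) → GL (Fin n) k}

/-- the relation between the traces of the product and of the tensor power -/
theorem trace_rel_powP (hS : S.Finite) {m₀ : ℕ} {b₀ : HeightOneSpectrum (𝓞 K) → GL (Fin m₀) k}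
    {ρ₀ : GK K →* GL (Fin m₀) k} (hρ₀ : CorrP S b₀ ρ₀) {R₀ : GK K →* GL (Fin n × Fin m₀) k}
    (hR₀ : CorrP S (fun v => kr (a v) (b₀ v)) R₀) {p : ℕ} {R : GK K →* GL (Fin p → Fin n) k}
    (hR : CorrP S (fun v => tp p (a v)) R) (x : GK K) :
    (R₀ x : Matrix (Fin n × Fin m₀) (Fin n × Fin m₀) k).trace ^ p =
      (R x : Matrix (Fin p → Fin n) (Fin p → Fin n) k).trace *
        (ρ₀ x : Matrix (Fin m₀) (Fin m₀) k).trace ^ p := by
  refine cheb_eq hS (f₁ := fun x => (R₀ x : Matrix (Fin n × Fin m₀) (Fin n × Fin m₀) k).trace ^ p)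
    (f₂ := fun x => (R x : Matrix (Fin p → Fin n) (Fin p → Fin n) k).trace *
        (ρ₀ x : Matrix (Fin m₀) (Fin m₀) k).trace ^ p)
      ((cont_trace hR₀.continuous).pow p)
      ((cont_trace hR.continuous).mul ((cont_trace hρ₀.continuous).pow p)) ?_ x
  intro v hv σ hσ
  have e1 := hR₀.trace_one hv hσ
  have e2 := hR.trace_pow hv hσ 1
  have e3 := hρ₀.trace_one hv hσ
  rw [kr_trace] at e1
  rw [tp_pow_trace, pow_one, pow_one] at e2
  rw [e1, e2, e3, mul_pow]

/-- **Descent from one tensor product and tensor powers.** -/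
theorem residual_power_descent (hS : S.Finite)
    {m₀ : ℕ} (hm₀ : 0 < m₀) (hbig : ∀ j : ℕ, 1 ≤ j → j ≤ n * m₀ → (j : k) ≠ 0)
    {b₀ : HeightOneSpectrum (𝓞 K) → GL (Fin m₀) k} {ρ₀ : GK K →* GL (Fin m₀) k}
    (hρ₀ : CorrP S b₀ ρ₀)
    {R₀ : GK K →* GL (Fin n × Fin m₀) k} (hR₀ : CorrP S (fun v => kr (a v) (b₀ v)) R₀)
    (hss : Semisimple R₀) {κ : Type} {p : κ → ℕ} (hp : ∀ d : ℕ, (∀ i, d ∣ p i) → d = 1)
    {R : ∀ i, GK K →* GL (Fin (p i) → Fin n) k} (hR : ∀ i, CorrP S (fun v => tp (p i) (a v)) (R i))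
    (hirr : AbsIrrOn ρ₀ (⨅ i, (R i).ker)) :
    ∃ r : GK K →* GL (Fin n) k, CorrP S a r ∧ (∃ P, ∀ g, R₀ g = P * kr (r g) (ρ₀ g) * P⁻¹) ∧
      (⨅ i, (R i).ker) ≤ r.ker := by
  classical
  have hNn : (⨅ i, (R i).ker).Normal := Subgroup.normal_iInf_normal fun i => inferInstance
  have hrel := fun i => trace_rel_powP hS hρ₀ hR₀ (hR i)
  have hone : ∀ p : ℕ, ((1 : GL (Fin p → Fin n) k) :
      Matrix (Fin p → Fin n) (Fin p → Fin n) k).trace = (n : k) ^ p := by
    intro p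
    rw [Units.val_one, Matrix.trace_one, Fintype.card_fun, Fintype.card_fin, Fintype.card_fin,
      Nat.cast_pow]
  have hmem : ∀ x ∈ ⨅ i, (R i).ker, ∀ i, R i x = 1 := fun x hx i =>
    (R i).mem_ker.1 ((Subgroup.mem_iInf.1 hx) i)
  have htr : ∀ x ∈ ⨅ i, (R i).ker, (R₀ x : Matrix (Fin n × Fin m₀) (Fin n × Fin m₀) k).trace =
      n * (ρ₀ x : Matrix (Fin m₀) (Fin m₀) k).trace := by
    intro x hx
    refine eq_of_pow' hp fun i => ?_
    have h3 := hrel i x
    rw [hmem x hx i, hone, ← mul_pow] at h3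
    exact h3
  obtain ⟨U, P, hP, hU⟩ := descend hm₀ hbig R₀ hss ρ₀ _ hirr.absIrr htr
  have hUtr : ∀ g, (R₀ g : Matrix (Fin n × Fin m₀) (Fin n × Fin m₀) k).trace =
      (U g : Matrix (Fin n) (Fin n) k).trace * (ρ₀ g : Matrix (Fin m₀) (Fin m₀) k).trace := by
    intro g
    have h1 : IsConj (R₀ g) (kr (U g) (ρ₀ g)) := by
      rw [isConj_iff]
      exact ⟨P⁻¹, by rw [hP]; group⟩
    rw [trace_conj h1, kr_trace]
  have key : ∀ (i : κ) (g : GK K),
      (R i g : Matrix (Fin (p i) → Fin n) (Fin (p i) → Fin n) k).trace =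
        (U g : Matrix (Fin n) (Fin n) k).trace ^ p i := by
    intro i g
    by_contra hne
    have h1 := cancel hm₀ ρ₀ _ hirr.absIrr g 1 (by
      intro x hx2
      rw [one_mul]
      by_contra h0
      have h2 := hrel i (g * x)
      rw [hUtr, map_mul U, hU x hx2, mul_one, map_mul (R i), hmem x hx2 i, mul_one, mul_pow] at h2
      exact hne (mul_right_cancel₀ (pow_ne_zero _ h0) h2).symm)
    exact one_ne_zero h1
  refine ⟨U, ⟨descend_cont hm₀ hR₀.continuous hρ₀.continuous hP, fun v hv τ hτ => ?_,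
    fun v hv σ hσ => ?_⟩, ⟨P, hP⟩, fun x hx => U.mem_ker.2 (hU x hx)⟩
  · have h1 := hP τ
    rw [hR₀.unramified v hv τ hτ, hρ₀.unramified v hv τ hτ] at h1
    have h2 : kr (U τ) (1 : GL (Fin m₀) k) = kr 1 1 := by
      rw [kr_one]
      have : kr (U τ) (1 : GL (Fin m₀) k) = P⁻¹ * (P * kr (U τ) (1 : GL (Fin m₀) k) * P⁻¹) * P := by
        group
      rw [this, ← h1]
      group
    exact kr_inj hm₀ h2
  · have hm : n ≤ n * m₀ := Nat.le_mul_of_pos_right n hm₀
    refine charpoly_of_tr (fun j h1 h2 => hbig j h1 (h2.trans hm)) _ _ fun j h1 h2 => ?_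
    have hU' : (((U σ)⁻¹ : GL (Fin n) k) : Matrix (Fin n) (Fin n) k) ^ j =
        (U (σ⁻¹ ^ j) : Matrix (Fin n) (Fin n) k) := by
      rw [map_pow, map_inv, Units.val_pow_eq_pow_val]
    rw [hU']
    refine eq_of_pow' hp fun i => ?_
    rw [← key i, (hR i).trace_pow hv hσ, tp_pow_trace]

end main

end Pool.Agent.Q65.TD
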