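import Pool.Agent.Q65.TD.Core

/-!
# Tensor descent for representations: the tensor decomposition
-/

set_option autoImplicit false
set_option linter.unusedSectionVars false

namespace Pool.Agent.Q65.TD

open Module Matrix Polynomial
open scoped Kronecker

section kron

variable {k : Type*} [Field k] {n m : ℕ}

/-- the Kronecker product of invertible matrices -/
def kr (A : GL (Fin n) k) (B : GL (Fin m) k) : GL (Fin n × Fin m) k where
  val := (A : Matrix (Fin n) (Fin n) k) ⊗ₖ (B : Matrix (Fin m) (Fin m) k)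
  inv := ((A⁻¹ : GL (Fin n) k) : Matrix (Fin n) (Fin n) k) ⊗ₖ ((B⁻¹ : GL (Fin m) k) : Matrix _ _ k)
  val_inv := by
    rw [← Matrix.mul_kronecker_mul, ← Units.val_mul, ← Units.val_mul, mul_inv_cancel,
      mul_inv_cancel, Units.val_one, Units.val_one, Matrix.one_kronecker_one]
  inv_val := by
    rw [← Matrix.mul_kronecker_mul, ← Units.val_mul, ← Units.val_mul, inv_mul_cancel,
      inv_mul_cancel, Units.val_one, Units.val_one, Matrix.one_kronecker_one]

theorem kr_val (A : GL (Fin n) k) (B : GL (Fin m) k) :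
    ((kr A B : GL (Fin n × Fin m) k) : Matrix (Fin n × Fin m) (Fin n × Fin m) k) =
    (A : Matrix (Fin n) (Fin n) k) ⊗ₖ (B : Matrix (Fin m) (Fin m) k) := rfl

theorem kr_mul (A A' : GL (Fin n) k) (B B' : GL (Fin m) k) :
    kr A B * kr A' B' = kr (A * A') (B * B') := by
  apply Units.ext
  rw [Units.val_mul, kr_val, kr_val, kr_val, ← Matrix.mul_kronecker_mul, ← Units.val_mul,
    ← Units.val_mul]

theorem kr_one : kr (1 : GL (Fin n) k) (1 : GL (Fin m) k) = 1 := by
  apply Units.ext
  rw [kr_val, Units.val_one, Units.val_one, Matrix.one_kronecker_one, Units.val_one]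

theorem kr_inv (A : GL (Fin n) k) (B : GL (Fin m) k) : (kr A B)⁻¹ = kr A⁻¹ B⁻¹ := by
  rw [inv_eq_iff_mul_eq_one, kr_mul, mul_inv_cancel, mul_inv_cancel, kr_one]

theorem kr_pow (A : GL (Fin n) k) (B : GL (Fin m) k) (j : ℕ) : (kr A B) ^ j = kr (A ^ j) (B ^ j) := by
  induction j with
  | zero => rw [pow_zero, pow_zero, pow_zero, kr_one]
  | succ j ih => rw [pow_succ, pow_succ, pow_succ, ih, kr_mul]

theorem kr_trace (A : GL (Fin n) k) (B : GL (Fin m) k) :
    ((kr A B : GL (Fin n × Fin m) k) : Matrix (Fin n × Fin m) (Fin n × Fin m) k).trace =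
    (A : Matrix (Fin n) (Fin n) k).trace * (B : Matrix (Fin m) (Fin m) k).trace := by
  rw [kr_val, Matrix.trace_kronecker]

theorem kr_inj (hm : 0 < m) {A A' : GL (Fin n) k} {B : GL (Fin m) k} (h : kr A B = kr A' B) :
    A = A' := by
  have h1 : kr A 1 = kr A' (1 : GL (Fin m) k) := by
    have := congrArg (fun X => X * kr 1 B⁻¹) h
    simp only [kr_mul, mul_one, mul_inv_cancel] at this
    exact this
  have h2 := congrArg (fun X : GL (Fin n × Fin m) k =>
    (X : Matrix (Fin n × Fin m) (Fin n × Fin m) k)) h1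
  apply Units.ext
  ext i j
  have h3 := congrFun (congrFun h2 (i, ⟨0, hm⟩)) (j, ⟨0, hm⟩)
  simpa [kr_val, Matrix.kroneckerMap_apply] using h3

end kron

section skolem

variable {k : Type*} [Field k] {n m : ℕ}

/-- **Skolem–Noether** for matrix algebras, with traces -/
theorem skolem (hm : 0 < m) (hn : ∀ j : ℕ, 1 ≤ j → j ≤ n * m → (j : k) ≠ 0)
    (φ : Matrix (Fin m) (Fin m) k →ₐ[k] Matrix (Fin n × Fin m) (Fin n × Fin m) k)
    (htr : ∀ X, (φ X).trace = n * X.trace) :
    ∃ P : GL (Fin n × Fin m) k, ∀ X, φ X * (P : Matrix _ _ k) =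
      (P : Matrix _ _ k) * ((1 : Matrix (Fin n) (Fin n) k) ⊗ₖ X) := by
  classical
  set z : Fin m := ⟨0, hm⟩ with hz
  set e : Matrix (Fin n × Fin m) (Fin n × Fin m) k := φ (Matrix.single z z 1) with he
  have hee : e * e = e := by
    rw [he, ← map_mul, Matrix.single_mul_single_same, mul_one]
  have hff : IsIdempotentElem (Matrix.toLin' e) := by
    unfold IsIdempotentElem
    rw [Module.End.mul_eq_comp, ← Matrix.toLin'_mul, hee]
  have h1 := (LinearMap.IsIdempotentElem.isProj_range _ hff).trace
  rw [Matrix.trace_toLin'_eq, he, htr, Matrix.trace_single_eq_same, mul_one, ← he] at h1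
  have h3 : finrank k (LinearMap.range (Matrix.toLin' e)) ≤ n * m := by
    have := Submodule.finrank_le (LinearMap.range (Matrix.toLin' e))
    rwa [Module.finrank_fintype_fun_eq_card, Fintype.card_prod, Fintype.card_fin,
      Fintype.card_fin] at this
  have hnm : n ≤ n * m := Nat.le_mul_of_pos_right n hm
  have hrank : finrank k (LinearMap.range (Matrix.toLin' e)) = n := by
    rcases lt_trichotomy (finrank k (LinearMap.range (Matrix.toLin' e))) n with h | h | h
    · exfalso
      apply hn (n - finrank k (LinearMap.range (Matrix.toLin' e))) (by omega) (by omega)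
      rw [Nat.cast_sub h.le, h1, sub_self]
    · exact h
    · exfalso
      apply hn (finrank k (LinearMap.range (Matrix.toLin' e)) - n) (by omega) (by omega)
      rw [Nat.cast_sub h.le, h1, sub_self]
  let w : Basis (Fin n) k (LinearMap.range (Matrix.toLin' e)) := Module.finBasisOfFinrankEq k _ hrank
  have hw : ∀ i, e.mulVec (w i : Fin n × Fin m → k) = w i := by
    intro i
    obtain ⟨v, hv⟩ := (w i).2
    rw [← hv, Matrix.toLin'_apply, Matrix.mulVec_mulVec, hee]
  -- the columns
  let c : Fin n × Fin m → (Fin n × Fin m → k) := fun p => (φ (Matrix.single p.2 z 1)).mulVec (w p.1)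
  have hc : ∀ X (p : Fin n × Fin m), (φ X).mulVec (c p) = ∑ l, X l p.2 • c (p.1, l) := by
    intro X p
    show (φ X).mulVec ((φ (Matrix.single p.2 z 1)).mulVec (w p.1)) = _
    rw [Matrix.mulVec_mulVec, ← map_mul]
    have h4 : X * Matrix.single p.2 z 1 = ∑ l, X l p.2 • Matrix.single l z (1 : k) := by
      ext a b
      rw [Matrix.sum_apply]
      simp only [Matrix.smul_apply, Matrix.single_apply, smul_eq_mul, Matrix.mul_apply]
      by_cases hb : z = b
      · subst hb
        simp
      · simp [hb]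
    rw [h4, map_sum, Matrix.sum_mulVec]
    refine Finset.sum_congr rfl fun l _ => ?_
    rw [map_smul, Matrix.smul_mulVec]
  have hli : LinearIndependent k c := by
    rw [Fintype.linearIndependent_iff]
    intro g hg p
    have h5 : (φ (Matrix.single z p.2 1)).mulVec (∑ q, g q • c q) = 0 := by
      rw [hg, Matrix.mulVec_zero]
    rw [Matrix.mulVec_sum] at h5
    have h6 : ∀ q : Fin n × Fin m, (φ (Matrix.single z p.2 1)).mulVec (g q • c q) =
        if q.2 = p.2 then g q • (w q.1 : Fin n × Fin m → k) else 0 := by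
      intro q
      rw [Matrix.mulVec_smul]
      show g q • (φ (Matrix.single z p.2 1)).mulVec ((φ (Matrix.single q.2 z 1)).mulVec (w q.1)) = _
      rw [Matrix.mulVec_mulVec, ← map_mul]
      by_cases hq : q.2 = p.2
      · rw [hq, Matrix.single_mul_single_same, mul_one, if_pos rfl, ← he, hw]
      · rw [Matrix.single_mul_single_of_ne _ _ _ _ (fun h => hq h.symm), map_zero,
          Matrix.zero_mulVec, smul_zero, if_neg hq]
    rw [Finset.sum_congr rfl fun q _ => h6 q, Fintype.sum_prod_type] at h5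
    simp only [Finset.sum_ite_eq', Finset.mem_univ, if_true] at h5
    have h7 := w.linearIndependent
    rw [Fintype.linearIndependent_iff] at h7
    have h8 := h7 (fun i => g (i, p.2)) (by
      apply Subtype.ext
      rw [Submodule.coe_sum]
      simpa using h5)
    exact h8 p.1
  let B : Basis (Fin n × Fin m) k (Fin n × Fin m → k) :=
    Basis.mk hli (hli.span_eq_top_of_card_eq_finrank' (by
      rw [Module.finrank_fintype_fun_eq_card])).ge
  have hB : ∀ p, B p = c p := fun p => by
    rw [Basis.mk_apply]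
  let Q : Matrix (Fin n × Fin m) (Fin n × Fin m) k := (Pi.basisFun k _).toMatrix B
  let Q' : Matrix (Fin n × Fin m) (Fin n × Fin m) k := B.toMatrix (Pi.basisFun k _)
  have hQ : Q * Q' = 1 := Module.Basis.toMatrix_mul_toMatrix_flip _ _
  have hQ' : Q' * Q = 1 := Module.Basis.toMatrix_mul_toMatrix_flip _ _
  have hQe : ∀ a p, Q a p = c p a := by
    intro a p
    show (Pi.basisFun k _).toMatrix B a p = _
    rw [Module.Basis.toMatrix_apply, Pi.basisFun_repr, hB]
  refine ⟨⟨Q, Q', hQ, hQ'⟩, fun X => ?_⟩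
  show φ X * Q = Q * _
  ext a p
  have h9 := congrFun (hc X p) a
  rw [Finset.sum_apply] at h9
  rw [Matrix.mul_apply, Matrix.mul_apply, Fintype.sum_prod_type (f := fun q => Q a q * _)]
  have h10 : ∑ b, φ X a b * Q b p = (φ X).mulVec (c p) a := by
    rw [Matrix.mulVec, dotProduct]
    refine Finset.sum_congr rfl fun b _ => ?_
    rw [hQe]
  rw [h10, h9]
  have h11 : ∀ i, ∑ l, Q a (i, l) * ((1 : Matrix (Fin n) (Fin n) k) ⊗ₖ X) (i, l) p =
      if i = p.1 then ∑ l, X l p.2 * Q a (p.1, l) else 0 := by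
    intro i
    by_cases hi : i = p.1
    · subst hi
      rw [if_pos rfl]
      refine Finset.sum_congr rfl fun l _ => ?_
      rw [Matrix.kroneckerMap_apply, Matrix.one_apply_eq, one_mul, mul_comm]
    · rw [if_neg hi]
      refine Finset.sum_eq_zero fun l _ => ?_
      rw [Matrix.kroneckerMap_apply, Matrix.one_apply_ne hi, zero_mul, mul_zero]
  rw [Finset.sum_congr rfl fun i _ => h11 i, Finset.sum_ite_eq' Finset.univ p.1, if_pos (Finset.mem_univ _)]
  refine Finset.sum_congr rfl fun l _ => ?_
  rw [Pi.smul_apply, smul_eq_mul, hQe]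

/-- a matrix commuting with all `1 ⊗ X` is of the form `U ⊗ 1` -/
theorem comm_kron (hm : 0 < m) (T : Matrix (Fin n × Fin m) (Fin n × Fin m) k)
    (hT : ∀ X : Matrix (Fin m) (Fin m) k, T * ((1 : Matrix (Fin n) (Fin n) k) ⊗ₖ X) =
      ((1 : Matrix (Fin n) (Fin n) k) ⊗ₖ X) * T) :
    T = (Matrix.of fun i j => T (i, ⟨0, hm⟩) (j, ⟨0, hm⟩)) ⊗ₖ (1 : Matrix (Fin m) (Fin m) k) := by
  classical
  ext ⟨i, a⟩ ⟨j, b⟩
  have h := congrFun (congrFun (hT (Matrix.single b ⟨0, hm⟩ 1)) (i, a)) (j, ⟨0, hm⟩)
  rw [Matrix.mul_apply, Matrix.mul_apply, Fintype.sum_prod_type, Fintype.sum_prod_type] at h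
  rw [Finset.sum_eq_single j, Finset.sum_eq_single b, Finset.sum_eq_single i,
    Finset.sum_eq_single ⟨0, hm⟩] at h
  · simp only [Matrix.kroneckerMap_apply, Matrix.one_apply_eq, Matrix.single_apply_same, one_mul,
      mul_one] at h
    rw [h, Matrix.kroneckerMap_apply, Matrix.of_apply]
    by_cases hab : a = b
    · subst hab
      simp
    · rw [Matrix.one_apply_ne hab, mul_zero]
      simp [Matrix.single_apply, Ne.symm hab]
  · intro c _ hc
    simp [Matrix.kroneckerMap_apply, Matrix.single_apply, Ne.symm hc]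
  · intro h0; exact absurd (Finset.mem_univ _) h0
  · intro l _ hl
    refine Finset.sum_eq_zero fun c _ => ?_
    rw [Matrix.kroneckerMap_apply, Matrix.one_apply_ne hl.symm, zero_mul, zero_mul]
  · intro h0; exact absurd (Finset.mem_univ _) h0
  · intro c _ hc
    simp [Matrix.kroneckerMap_apply, Matrix.single_apply, Ne.symm hc]
  · intro h0; exact absurd (Finset.mem_univ _) h0
  · intro l _ hl
    refine Finset.sum_eq_zero fun c _ => ?_
    rw [Matrix.kroneckerMap_apply, Matrix.one_apply_ne hl, zero_mul, mul_zero]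
  · intro h0; exact absurd (Finset.mem_univ _) h0

end skolem

end Pool.Agent.Q65.TD
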