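import Pool.Agent.Q65.TD.ResPow

/-!
# Descent from one tensor product and symmetric powers, dimension two
-/

set_option autoImplicit false
set_option linter.unusedSectionVars false

namespace Pool.Agent.Q65.TD

open Matrix NumberField IsDedekindDomain Topology Polynomial
open Pool.Agent.W401.Cheb (GK IsFrob IsInert)

/-- the eigenvalues of the `j`-th symmetric power of `diag (α 0, α 1)` -/
def symd {k : Type} [Field k] (j : ℕ) (α : Fin 2 → kˣ) : Fin (j + 1) → kˣ :=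
  fun i => α 0 ^ (j - (i : ℕ)) * α 1 ^ (i : ℕ)

/-- The representation `R` has no stable subspaces except `0` and the whole space. -/
def Irred {G : Type*} [Group G] {k : Type*} [Field k] {ι : Type*} [Fintype ι] [DecidableEq ι]
    (R : G →* GL ι k) : Prop :=
  ∀ W : Submodule k (ι → k), Stable R W → W = ⊥ ∨ W = ⊤

section sums

variable {k : Type} [Field k]

theorem sum_sym2 (α : Fin 2 → kˣ) (e : ℕ) : ∑ i, ((symd 2 α i : kˣ) : k) ^ e =
    ((α 0 : k) ^ e + (α 1 : k) ^ e) ^ 2 - (α 0 : k) ^ e * (α 1 : k) ^ e := by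
  simp only [symd, Fin.sum_univ_succ, Fin.sum_univ_zero, Units.val_mul, Units.val_pow_eq_pow_val]
  simp
  ring

theorem sum_sym3 (α : Fin 2 → kˣ) (e : ℕ) : ∑ i, ((symd 3 α i : kˣ) : k) ^ e =
    ((α 0 : k) ^ e + (α 1 : k) ^ e) ^ 3 -
      2 * ((α 0 : k) ^ e + (α 1 : k) ^ e) * ((α 0 : k) ^ e * (α 1 : k) ^ e) := by
  simp only [symd, Fin.sum_univ_succ, Fin.sum_univ_zero, Units.val_mul, Units.val_pow_eq_pow_val]
  simp
  ring

theorem sum_sym5 (α : Fin 2 → kˣ) (e : ℕ) : ∑ i, ((symd 5 α i : kˣ) : k) ^ e =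
    ((α 0 : k) ^ e + (α 1 : k) ^ e) ^ 5 -
      4 * ((α 0 : k) ^ e + (α 1 : k) ^ e) ^ 3 * ((α 0 : k) ^ e * (α 1 : k) ^ e) +
      3 * ((α 0 : k) ^ e + (α 1 : k) ^ e) * ((α 0 : k) ^ e * (α 1 : k) ^ e) ^ 2 := by
  simp only [symd, Fin.sum_univ_succ, Fin.sum_univ_zero, Units.val_mul, Units.val_pow_eq_pow_val]
  simp
  ring

end sums

section alg

variable {k : Type} [Field k] [CharZero k]

/-- the trace is determined by `Sym 2` and `Sym 3` on the kernel -/
theorem two_of {t s : k} (h2 : t ^ 2 = 4 * s ^ 2) (h3 : t ^ 3 = 4 * s ^ 3 + 2 * t * s ^ 2) :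
    t = 2 * s := by
  by_cases hs : s = 0
  · subst hs
    have : t ^ 2 = 0 := by rw [h2]; ring
    rw [pow_eq_zero_iff two_ne_zero] at this
    rw [this]; ring
  · have h4 : 2 * s ^ 2 * (t - 2 * s) = 0 := by
      have h5 : t ^ 3 = t * (4 * s ^ 2) := by rw [← h2]; ring
      rw [h5] at h3
      linear_combination h3
    have h6 : (2 * s ^ 2 : k) ≠ 0 := mul_ne_zero two_ne_zero (pow_ne_zero _ hs)
    exact sub_eq_zero.1 ((mul_eq_zero.1 h4).resolve_left h6)

/-- the trace is determined by `Sym 2`, `Sym 3` and `Sym 5` -/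
theorem eq_of_sym {u A D : k} (hD : D ≠ 0) (h2 : u ^ 2 = A ^ 2)
    (h3 : u ^ 3 - 2 * u * D = A ^ 3 - 2 * A * D)
    (h5 : u ^ 5 - 4 * u ^ 3 * D + 3 * u * D ^ 2 = A ^ 5 - 4 * A ^ 3 * D + 3 * A * D ^ 2) :
    u = A := by
  have e3 : u ^ 3 = u * A ^ 2 := by rw [← h2]; ring
  have e5 : u ^ 5 = u * (A ^ 2) ^ 2 := by rw [← h2]; ring
  rw [e3] at h3
  rw [e5, e3] at h5
  have h6 : (u - A) * (A ^ 2 - 2 * D) = 0 := by linear_combination h3
  have h7 : (u - A) * D ^ 2 = 0 := by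
    linear_combination (A ^ 2 - 2 * D) * h6 - h5
  have h8 : D ^ 2 ≠ 0 := pow_ne_zero _ hD
  exact sub_eq_zero.1 ((mul_eq_zero.1 h7).resolve_right h8)

/-- an invertible matrix whose odd powers have trace zero has even size -/
theorem odd_pow_trace {m : ℕ} (hm : Odd m) (B : GL (Fin m) k)
    (h : ∀ j, Odd j → ((B : Matrix (Fin m) (Fin m) k) ^ j).trace = 0) : False := by
  have h1 : (-(B : Matrix (Fin m) (Fin m) k)).charpoly = (B : Matrix (Fin m) (Fin m) k).charpoly := by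
    refine charpoly_of_tr (fun j h1 h2 => Nat.cast_ne_zero.2 (by omega)) _ _ fun j h1 h2 => ?_
    rcases Nat.even_or_odd j with hj | hj
    · rw [hj.neg_pow]
    · rw [hj.neg_pow, Matrix.trace_neg, h j hj, neg_zero]
  have h2 : (-(B : Matrix (Fin m) (Fin m) k)).det = (B : Matrix (Fin m) (Fin m) k).det := by
    rw [Matrix.det_eq_sign_charpoly_coeff, Matrix.det_eq_sign_charpoly_coeff, h1]
  rw [Matrix.det_neg, Fintype.card_fin, hm.neg_one_pow, neg_one_mul] at h2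
  have h3 : (B : Matrix (Fin m) (Fin m) k).det ≠ 0 :=
    ((Matrix.isUnit_iff_isUnit_det _).1 B.isUnit).ne_zero
  have h4 : (2 : k) * (B : Matrix (Fin m) (Fin m) k).det = 0 := by linear_combination -h2
  exact h3 ((mul_eq_zero.1 h4).resolve_left two_ne_zero)

/-- odd power sums of `a`, `b` with `a² + b² = 0` -/
theorem odd_sum_ne {a b : k} (ha : a ≠ 0) (h : a ^ 2 + b ^ 2 = 0) {j : ℕ} (hj : Odd j) :
    a ^ j + b ^ j ≠ 0 := by
  intro h0
  have h1 : b ^ j = -a ^ j := by linear_combination h0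
  have h2 : b ^ 2 = -a ^ 2 := by linear_combination h
  have h3 : (b ^ j) ^ 2 = (a ^ j) ^ 2 := by rw [h1]; ring
  have h4 : (b ^ j) ^ 2 = -(a ^ j) ^ 2 := by
    rw [← pow_mul, mul_comm, pow_mul, h2, hj.neg_pow, ← pow_mul, mul_comm, pow_mul]
  have h5 : (2 : k) * (a ^ j) ^ 2 = 0 := by linear_combination h4 - h3
  exact pow_ne_zero 2 (pow_ne_zero j ha) ((mul_eq_zero.1 h5).resolve_left two_ne_zero)

end alg

section main

variable {K : Type} [Field K] [NumberField K] {k : Type} [Field k] [TopologicalSpace k]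
  [IsTopologicalRing k] [T2Space k] [CharZero k] {S : Set (HeightOneSpectrum (𝓞 K))}
  {α : HeightOneSpectrum (𝓞 K) → Fin 2 → kˣ}

theorem tr_dgP {ι : Type} [Fintype ι] [DecidableEq ι] {β : HeightOneSpectrum (𝓞 K) → ι → kˣ}
    {R : GK K →* GL ι k} (hR : CorrP S (fun v => dg (β v)) R) {v : HeightOneSpectrum (𝓞 K)}
    (hv : v ∉ S) {σ : GK K} (hσ : IsFrob v σ) (j : ℕ) :
    (R (σ⁻¹ ^ j) : Matrix ι ι k).trace = ∑ i, (β v i : k) ^ j := by
  rw [hR.trace_pow hv hσ, ← dg_pow_trace, Units.val_pow_eq_pow_val]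

/-- **Descent from one tensor product and symmetric powers.** -/
theorem symmetric_descent (hS : S.Finite) {m₀ : ℕ} (hm₀ : 0 < m₀)
    {b₀ : HeightOneSpectrum (𝓞 K) → GL (Fin m₀) k} {ρ₀ : GK K →* GL (Fin m₀) k}
    (hρ₀ : CorrP S b₀ ρ₀)
    {R₀ : GK K →* GL (Fin 2 × Fin m₀) k} (hR₀ : CorrP S (fun v => kr (dg (α v)) (b₀ v)) R₀)
    (hss : Semisimple R₀)
    {δ : GK K →* GL (Fin 1) k} (hδ : CorrP S (fun v => dg (fun _ : Fin 1 => α v 0 * α v 1)) δ)
    {R₂ : GK K →* GL (Fin 3) k} (hR₂ : CorrP S (fun v => dg (symd 2 (α v))) R₂)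
    {R₃ : GK K →* GL (Fin 4) k} (hR₃ : CorrP S (fun v => dg (symd 3 (α v))) R₃)
    {N : Subgroup (GK K)} [hN : N.Normal] (hNδ : N ≤ δ.ker) (hN2 : N ≤ R₂.ker) (hN3 : N ≤ R₃.ker)
    (hirr : AbsIrrOn ρ₀ N)
    (hex : Odd m₀ ∨ ∃ R₅ : GK K →* GL (Fin 6) k, CorrP S (fun v => dg (symd 5 (α v))) R₅ ∧
      N ≤ R₅.ker) :
    ∃ r : GK K →* GL (Fin 2) k, CorrP S (fun v => dg (α v)) r ∧
      (∃ P, ∀ g, R₀ g = P * kr (r g) (ρ₀ g) * P⁻¹) ∧ N ≤ r.ker := by
  classical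
  have e0 : ∀ {v : HeightOneSpectrum (𝓞 K)}, v ∉ S → ∀ {σ : GK K}, IsFrob v σ → ∀ j : ℕ,
      (R₀ (σ⁻¹ ^ j) : Matrix (Fin 2 × Fin m₀) (Fin 2 × Fin m₀) k).trace =
        ((α v 0 : k) ^ j + (α v 1 : k) ^ j) *
          (ρ₀ (σ⁻¹ ^ j) : Matrix (Fin m₀) (Fin m₀) k).trace := by
    intro v hv σ hσ j
    rw [hR₀.trace_pow hv hσ, hρ₀.trace_pow hv hσ, ← Units.val_pow_eq_pow_val, kr_pow, kr_trace,
      dg_pow_trace, Units.val_pow_eq_pow_val, Fin.sum_univ_two]
  have eδ : ∀ {v : HeightOneSpectrum (𝓞 K)}, v ∉ S → ∀ {σ : GK K}, IsFrob v σ → ∀ j : ℕ,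
      (δ (σ⁻¹ ^ j) : Matrix (Fin 1) (Fin 1) k).trace = (α v 0 : k) ^ j * (α v 1 : k) ^ j := by
    intro v hv σ hσ j
    rw [tr_dgP hδ hv hσ]
    simp [mul_pow]
  have e2 : ∀ {v : HeightOneSpectrum (𝓞 K)}, v ∉ S → ∀ {σ : GK K}, IsFrob v σ → ∀ j : ℕ,
      (R₂ (σ⁻¹ ^ j) : Matrix (Fin 3) (Fin 3) k).trace =
      ((α v 0 : k) ^ j + (α v 1 : k) ^ j) ^ 2 - (α v 0 : k) ^ j * (α v 1 : k) ^ j := by
    intro v hv σ hσ j
    rw [tr_dgP hR₂ hv hσ, sum_sym2]
  have e3 : ∀ {v : HeightOneSpectrum (𝓞 K)}, v ∉ S → ∀ {σ : GK K}, IsFrob v σ → ∀ j : ℕ,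
      (R₃ (σ⁻¹ ^ j) : Matrix (Fin 4) (Fin 4) k).trace =
      ((α v 0 : k) ^ j + (α v 1 : k) ^ j) ^ 3 -
      2 * ((α v 0 : k) ^ j + (α v 1 : k) ^ j) * ((α v 0 : k) ^ j * (α v 1 : k) ^ j) := by
    intro v hv σ hσ j
    rw [tr_dgP hR₃ hv hσ, sum_sym3]
  have r2 : ∀ x, (R₀ x : Matrix (Fin 2 × Fin m₀) (Fin 2 × Fin m₀) k).trace ^ 2 =
      (ρ₀ x : Matrix (Fin m₀) (Fin m₀) k).trace ^ 2 * ((R₂ x : Matrix (Fin 3) (Fin 3) k).trace +
        (δ x : Matrix (Fin 1) (Fin 1) k).trace) := by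
    intro x
    refine cheb_eq hS (f₁ := fun x =>
        (R₀ x : Matrix (Fin 2 × Fin m₀) (Fin 2 × Fin m₀) k).trace ^ 2)
      (f₂ := fun x => (ρ₀ x : Matrix (Fin m₀) (Fin m₀) k).trace ^ 2 *
        ((R₂ x : Matrix (Fin 3) (Fin 3) k).trace + (δ x : Matrix (Fin 1) (Fin 1) k).trace))
      ((cont_trace hR₀.continuous).pow 2)
      (((cont_trace hρ₀.continuous).pow 2).mul
        ((cont_trace hR₂.continuous).add (cont_trace hδ.continuous))) ?_ x
    intro v hv σ hσ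
    have f0 := e0 hv hσ 1
    have f2 := e2 hv hσ 1
    have fδ := eδ hv hσ 1
    simp only [pow_one] at f0 f2 fδ
    simp only [f0, f2, fδ]
    ring
  have r3 : ∀ x, (R₀ x : Matrix (Fin 2 × Fin m₀) (Fin 2 × Fin m₀) k).trace ^ 3 =
      (ρ₀ x : Matrix (Fin m₀) (Fin m₀) k).trace ^ 3 * (R₃ x : Matrix (Fin 4) (Fin 4) k).trace +
      2 * (R₀ x : Matrix (Fin 2 × Fin m₀) (Fin 2 × Fin m₀) k).trace *
        (ρ₀ x : Matrix (Fin m₀) (Fin m₀) k).trace ^ 2 *
        (δ x : Matrix (Fin 1) (Fin 1) k).trace := by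
    intro x
    refine cheb_eq hS (f₁ := fun x =>
        (R₀ x : Matrix (Fin 2 × Fin m₀) (Fin 2 × Fin m₀) k).trace ^ 3)
      (f₂ := fun x => (ρ₀ x : Matrix (Fin m₀) (Fin m₀) k).trace ^ 3 *
        (R₃ x : Matrix (Fin 4) (Fin 4) k).trace +
      2 * (R₀ x : Matrix (Fin 2 × Fin m₀) (Fin 2 × Fin m₀) k).trace *
        (ρ₀ x : Matrix (Fin m₀) (Fin m₀) k).trace ^ 2 *
        (δ x : Matrix (Fin 1) (Fin 1) k).trace)
      ((cont_trace hR₀.continuous).pow 3)
      ((((cont_trace hρ₀.continuous).pow 3).mul (cont_trace hR₃.continuous)).add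
        (((continuous_const.mul (cont_trace hR₀.continuous)).mul
          ((cont_trace hρ₀.continuous).pow 2)).mul (cont_trace hδ.continuous))) ?_ x
    intro v hv σ hσ
    have f0 := e0 hv hσ 1
    have f2 := e3 hv hσ 1
    have fδ := eδ hv hσ 1
    simp only [pow_one] at f0 f2 fδ
    simp only [f0, f2, fδ]
    ring
  have k1 : ∀ x ∈ N, (δ x : Matrix (Fin 1) (Fin 1) k).trace = 1 := by
    intro x hx
    rw [δ.mem_ker.1 (hNδ hx), Units.val_one, Matrix.trace_one, Fintype.card_fin, Nat.cast_one]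
  have htr : ∀ x ∈ N, (R₀ x : Matrix (Fin 2 × Fin m₀) (Fin 2 × Fin m₀) k).trace =
      ((2 : ℕ) : k) * (ρ₀ x : Matrix (Fin m₀) (Fin m₀) k).trace := by
    intro x hx
    have h1 := k1 x hx
    have h2 : (R₂ x : Matrix (Fin 3) (Fin 3) k).trace = 3 := by
      rw [R₂.mem_ker.1 (hN2 hx), Units.val_one, Matrix.trace_one, Fintype.card_fin]
      norm_num
    have h3 : (R₃ x : Matrix (Fin 4) (Fin 4) k).trace = 4 := by
      rw [R₃.mem_ker.1 (hN3 hx), Units.val_one, Matrix.trace_one, Fintype.card_fin]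
      norm_num
    have g2 := r2 x
    have g3 := r3 x
    rw [h1, h2] at g2
    rw [h1, h3] at g3
    rw [Nat.cast_ofNat]
    refine two_of ?_ ?_
    · rw [g2]; ring
    · linear_combination g3
  obtain ⟨U, P, hP, hU⟩ := descend hm₀ (fun j hj _ => Nat.cast_ne_zero.2 (by omega)) R₀ hss ρ₀ N
    hirr.absIrr htr
  have hUtr : ∀ g, (R₀ g : Matrix (Fin 2 × Fin m₀) (Fin 2 × Fin m₀) k).trace =
      (U g : Matrix (Fin 2) (Fin 2) k).trace * (ρ₀ g : Matrix (Fin m₀) (Fin m₀) k).trace := by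
    intro g
    have h1 : IsConj (R₀ g) (kr (U g) (ρ₀ g)) := by
      rw [isConj_iff]
      exact ⟨P⁻¹, by rw [hP]; group⟩
    rw [trace_conj h1, kr_trace]
  have hx0 : ∀ g, ∃ x ∈ N, (ρ₀ (g * x) : Matrix (Fin m₀) (Fin m₀) k).trace ≠ 0 := by
    intro g
    by_contra hne
    push Not at hne
    have h1 := cancel hm₀ ρ₀ N hirr.absIrr g 1 (by
      intro x hx
      rw [hne x hx, mul_zero])
    exact one_ne_zero h1
  have hmul : ∀ {ι : Type} [Fintype ι] [DecidableEq ι] (T : GK K →* GL ι k), N ≤ T.ker →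
      ∀ g, ∀ x ∈ N, T (g * x) = T g := by
    intro ι _ _ T hT g x hx
    rw [map_mul, T.mem_ker.1 (hT hx), mul_one]
  have hNU : N ≤ U.ker := fun x hx => U.mem_ker.2 (hU x hx)
  have key2 : ∀ g, (U g : Matrix (Fin 2) (Fin 2) k).trace ^ 2 =
      (R₂ g : Matrix (Fin 3) (Fin 3) k).trace + (δ g : Matrix (Fin 1) (Fin 1) k).trace := by
    intro g
    obtain ⟨x, hx, hs⟩ := hx0 g
    have h1 := r2 (g * x)
    rw [hUtr, hmul U hNU g x hx, hmul R₂ hN2 g x hx, hmul δ hNδ g x hx] at h1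
    refine mul_left_cancel₀ (pow_ne_zero 2 hs) ?_
    rw [← h1]; ring
  have key3 : ∀ g, (U g : Matrix (Fin 2) (Fin 2) k).trace ^ 3 -
      2 * (U g : Matrix (Fin 2) (Fin 2) k).trace * (δ g : Matrix (Fin 1) (Fin 1) k).trace =
      (R₃ g : Matrix (Fin 4) (Fin 4) k).trace := by
    intro g
    obtain ⟨x, hx, hs⟩ := hx0 g
    have h1 := r3 (g * x)
    rw [hUtr, hmul U hNU g x hx, hmul R₃ hN3 g x hx, hmul δ hNδ g x hx] at h1
    refine mul_left_cancel₀ (pow_ne_zero 3 hs) ?_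
    linear_combination h1
  have main : ∀ v ∉ S, ∀ σ : GK K, IsFrob v σ → ∀ e : ℕ,
      (U (σ⁻¹ ^ e) : Matrix (Fin 2) (Fin 2) k).trace = (α v 0 : k) ^ e + (α v 1 : k) ^ e := by
    intro v hv σ hσ
    have q2 : ∀ e : ℕ, (U (σ⁻¹ ^ e) : Matrix (Fin 2) (Fin 2) k).trace ^ 2 =
        ((α v 0 : k) ^ e + (α v 1 : k) ^ e) ^ 2 := by
      intro e
      rw [key2, e2 hv hσ, eδ hv hσ]
      ring
    have q3 : ∀ e : ℕ, (U (σ⁻¹ ^ e) : Matrix (Fin 2) (Fin 2) k).trace ^ 3 -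
        2 * (U (σ⁻¹ ^ e) : Matrix (Fin 2) (Fin 2) k).trace *
          ((α v 0 : k) ^ e * (α v 1 : k) ^ e) =
        ((α v 0 : k) ^ e + (α v 1 : k) ^ e) ^ 3 -
        2 * ((α v 0 : k) ^ e + (α v 1 : k) ^ e) * ((α v 0 : k) ^ e * (α v 1 : k) ^ e) := by
      intro e
      have := key3 (σ⁻¹ ^ e)
      rw [e3 hv hσ, eδ hv hσ] at this
      exact this
    intro e
    rcases hex with hodd | ⟨R₅, hR₅, hN5⟩
    · by_contra hne
      set a : k := (α v 0 : k) ^ e with ha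
      set b : k := (α v 1 : k) ^ e with hb
      set u : k := (U (σ⁻¹ ^ e) : Matrix (Fin 2) (Fin 2) k).trace with hu
      have ha0 : a ≠ 0 := pow_ne_zero _ (Units.ne_zero _)
      have p2 : u ^ 2 = (a + b) ^ 2 := q2 e
      have p3 : u ^ 3 - 2 * u * (a * b) = (a + b) ^ 3 - 2 * (a + b) * (a * b) := q3 e
      have p4 : (u - (a + b)) * (a ^ 2 + b ^ 2) = 0 := by
        linear_combination p3 - u * p2
      have p5 : a ^ 2 + b ^ 2 = 0 := (mul_eq_zero.1 p4).resolve_left (sub_ne_zero.2 hne)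
      have p6 : (u - (a + b)) * (u + (a + b)) = 0 := by linear_combination p2
      have p7 : u = -(a + b) := eq_neg_of_add_eq_zero_left
        ((mul_eq_zero.1 p6).resolve_left (sub_ne_zero.2 hne))
      -- the characteristic polynomial of `U` is that of `- dg`
      set D' : Matrix (Fin 2) (Fin 2) k :=
        ((dg (α v) ^ e : GL (Fin 2) k) : Matrix (Fin 2) (Fin 2) k) with hD'
      have hDtr : ∀ j : ℕ, (D' ^ j).trace = a ^ j + b ^ j := by
        intro j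
        rw [hD', ← Units.val_pow_eq_pow_val, ← pow_mul, dg_pow_trace, Fin.sum_univ_two, pow_mul,
          pow_mul]
      have hUpow : ∀ j : ℕ, ((U (σ⁻¹ ^ e) : Matrix (Fin 2) (Fin 2) k) ^ j).trace =
          (U (σ⁻¹ ^ (e * j)) : Matrix (Fin 2) (Fin 2) k).trace := by
        intro j
        rw [← Units.val_pow_eq_pow_val, ← map_pow, ← pow_mul]
      have hcp : (U (σ⁻¹ ^ e) : Matrix (Fin 2) (Fin 2) k).charpoly = (-D').charpoly := by
        refine charpoly_of_tr (fun j h1 h2 => Nat.cast_ne_zero.2 (by omega)) _ _ fun j h1 h2 => ?_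
        obtain rfl | rfl : j = 1 ∨ j = 2 := by omega
        · rw [pow_one, pow_one, Matrix.trace_neg]
          have := hDtr 1
          rw [pow_one, pow_one, pow_one] at this
          rw [this]
          exact p7
        · rw [even_two.neg_pow, hDtr, hUpow, p5]
          have h1 := q2 (e * 2)
          rw [pow_mul (α v 0 : k), pow_mul (α v 1 : k), ← ha, ← hb, p5] at h1
          exact pow_eq_zero_iff two_ne_zero |>.1 (by rw [h1]; ring)
      refine odd_pow_trace hodd (b₀ v ^ e) fun j hj => ?_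
      have h1 := tr_of_charpoly hcp j
      rw [hj.neg_pow, Matrix.trace_neg, hDtr, hUpow] at h1
      have h2 := e0 hv hσ (e * j)
      rw [hUtr, h1, pow_mul (α v 0 : k), pow_mul (α v 1 : k), ← ha, ← hb] at h2
      have h3 : (a ^ j + b ^ j) * (ρ₀ (σ⁻¹ ^ (e * j)) : Matrix (Fin m₀) (Fin m₀) k).trace = 0 := by
        have h4 : (2 : k) * ((a ^ j + b ^ j) *
            (ρ₀ (σ⁻¹ ^ (e * j)) : Matrix (Fin m₀) (Fin m₀) k).trace) = 0 := by
          linear_combination -h2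
        exact (mul_eq_zero.1 h4).resolve_left two_ne_zero
      have h5 := (mul_eq_zero.1 h3).resolve_left (odd_sum_ne ha0 p5 hj)
      rw [hρ₀.trace_pow hv hσ, pow_mul] at h5
      rw [Units.val_pow_eq_pow_val]
      exact h5
    · have e5 : ∀ {v : HeightOneSpectrum (𝓞 K)}, v ∉ S → ∀ {σ : GK K}, IsFrob v σ → ∀ j : ℕ,
          (R₅ (σ⁻¹ ^ j) : Matrix (Fin 6) (Fin 6) k).trace =
          ((α v 0 : k) ^ j + (α v 1 : k) ^ j) ^ 5 -
          4 * ((α v 0 : k) ^ j + (α v 1 : k) ^ j) ^ 3 * ((α v 0 : k) ^ j * (α v 1 : k) ^ j) +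
          3 * ((α v 0 : k) ^ j + (α v 1 : k) ^ j) * ((α v 0 : k) ^ j * (α v 1 : k) ^ j) ^ 2 := by
        intro v hv σ hσ j
        rw [tr_dgP hR₅ hv hσ, sum_sym5]
      have r5 : ∀ x, (R₀ x : Matrix (Fin 2 × Fin m₀) (Fin 2 × Fin m₀) k).trace ^ 5 =
          (ρ₀ x : Matrix (Fin m₀) (Fin m₀) k).trace ^ 5 *
            (R₅ x : Matrix (Fin 6) (Fin 6) k).trace +
          4 * (R₀ x : Matrix (Fin 2 × Fin m₀) (Fin 2 × Fin m₀) k).trace ^ 3 *
            (ρ₀ x : Matrix (Fin m₀) (Fin m₀) k).trace ^ 2 *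
            (δ x : Matrix (Fin 1) (Fin 1) k).trace -
          3 * (R₀ x : Matrix (Fin 2 × Fin m₀) (Fin 2 × Fin m₀) k).trace *
            (ρ₀ x : Matrix (Fin m₀) (Fin m₀) k).trace ^ 4 *
            (δ x : Matrix (Fin 1) (Fin 1) k).trace ^ 2 := by
        intro x
        refine cheb_eq hS (f₁ := fun x =>
            (R₀ x : Matrix (Fin 2 × Fin m₀) (Fin 2 × Fin m₀) k).trace ^ 5)
          (f₂ := fun x => (ρ₀ x : Matrix (Fin m₀) (Fin m₀) k).trace ^ 5 *
            (R₅ x : Matrix (Fin 6) (Fin 6) k).trace +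
          4 * (R₀ x : Matrix (Fin 2 × Fin m₀) (Fin 2 × Fin m₀) k).trace ^ 3 *
            (ρ₀ x : Matrix (Fin m₀) (Fin m₀) k).trace ^ 2 *
            (δ x : Matrix (Fin 1) (Fin 1) k).trace -
          3 * (R₀ x : Matrix (Fin 2 × Fin m₀) (Fin 2 × Fin m₀) k).trace *
            (ρ₀ x : Matrix (Fin m₀) (Fin m₀) k).trace ^ 4 *
            (δ x : Matrix (Fin 1) (Fin 1) k).trace ^ 2)
          ((cont_trace hR₀.continuous).pow 5)
          (((((cont_trace hρ₀.continuous).pow 5).mul (cont_trace hR₅.continuous)).add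
            (((continuous_const.mul ((cont_trace hR₀.continuous).pow 3)).mul
              ((cont_trace hρ₀.continuous).pow 2)).mul (cont_trace hδ.continuous))).sub
            (((continuous_const.mul (cont_trace hR₀.continuous)).mul
              ((cont_trace hρ₀.continuous).pow 4)).mul ((cont_trace hδ.continuous).pow 2))) ?_ x
        intro v hv σ hσ
        have f0 := e0 hv hσ 1
        have f2 := e5 hv hσ 1
        have fδ := eδ hv hσ 1
        simp only [pow_one] at f0 f2 fδ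
        simp only [f0, f2, fδ]
        ring
      have key5 : ∀ g, (U g : Matrix (Fin 2) (Fin 2) k).trace ^ 5 -
          4 * (U g : Matrix (Fin 2) (Fin 2) k).trace ^ 3 *
            (δ g : Matrix (Fin 1) (Fin 1) k).trace +
          3 * (U g : Matrix (Fin 2) (Fin 2) k).trace *
            (δ g : Matrix (Fin 1) (Fin 1) k).trace ^ 2 =
          (R₅ g : Matrix (Fin 6) (Fin 6) k).trace := by
        intro g
        obtain ⟨x, hx, hs⟩ := hx0 g
        have h1 := r5 (g * x)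
        rw [hUtr, hmul U hNU g x hx, hmul R₅ hN5 g x hx, hmul δ hNδ g x hx] at h1
        refine mul_left_cancel₀ (pow_ne_zero 5 hs) ?_
        linear_combination h1
      refine eq_of_sym (D := (α v 0 : k) ^ e * (α v 1 : k) ^ e)
        (mul_ne_zero (pow_ne_zero _ (Units.ne_zero _)) (pow_ne_zero _ (Units.ne_zero _)))
        (q2 e) ?_ ?_
      · rw [q3 e]
      · have := key5 (σ⁻¹ ^ e)
        rw [e5 hv hσ, eδ hv hσ] at this
        exact this
  refine ⟨U, ⟨descend_cont hm₀ hR₀.continuous hρ₀.continuous hP, fun v hv τ hτ => ?_,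
    fun v hv σ hσ => ?_⟩, ⟨P, hP⟩, hNU⟩
  · have h1 := hP τ
    rw [hR₀.unramified v hv τ hτ, hρ₀.unramified v hv τ hτ] at h1
    have h2 : kr (U τ) (1 : GL (Fin m₀) k) = kr 1 1 := by
      rw [kr_one]
      have : kr (U τ) (1 : GL (Fin m₀) k) = P⁻¹ * (P * kr (U τ) (1 : GL (Fin m₀) k) * P⁻¹) * P := by
        group
      rw [this, ← h1]
      group
    exact kr_inj hm₀ h2
  · refine charpoly_of_tr (fun j h1 h2 => Nat.cast_ne_zero.2 (by omega)) _ _ fun j h1 h2 => ?_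
    have hU' : (((U σ)⁻¹ : GL (Fin 2) k) : Matrix (Fin 2) (Fin 2) k) ^ j =
        (U (σ⁻¹ ^ j) : Matrix (Fin 2) (Fin 2) k) := by
      rw [map_pow, map_inv, Units.val_pow_eq_pow_val]
    have h3 := dg_pow_trace (α v) j
    rw [Units.val_pow_eq_pow_val, Fin.sum_univ_two] at h3
    rw [hU', main v hv σ hσ]
    exact h3.symm

end main

section irr

variable {G : Type*} [Group G] {k : Type*} [Field k] {n m : ℕ}

/-- irreducibility is invariant under conjugation -/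
theorem irr_conj {ι : Type*} [Fintype ι] [DecidableEq ι] {R R' : G →* GL ι k} (P : GL ι k)
    (h : ∀ g, R g = P * R' g * P⁻¹) (hR : Irred R) : Irred R' := by
  have hP : (P : Matrix ι ι k) * ((P⁻¹ : GL ι k) : Matrix ι ι k) = 1 := by
    rw [← Units.val_mul, mul_inv_cancel, Units.val_one]
  have hP' : ((P⁻¹ : GL ι k) : Matrix ι ι k) * (P : Matrix ι ι k) = 1 := by
    rw [← Units.val_mul, inv_mul_cancel, Units.val_one]
  intro W hW
  set W' : Submodule k (ι → k) :=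
    W.comap ((((P⁻¹ : GL ι k) : Matrix ι ι k)).mulVecLin) with hW'
  have hmem : ∀ x, x ∈ W' ↔ ((P⁻¹ : GL ι k) : Matrix ι ι k) *ᵥ x ∈ W := fun x => Iff.rfl
  have hst : Stable R W' := by
    intro g w hw
    rw [hmem] at hw ⊢
    have h1 := hW g _ hw
    have h2 : ((P⁻¹ : GL ι k) : Matrix ι ι k) *ᵥ ((R g : Matrix ι ι k) *ᵥ w) =
        (R' g : Matrix ι ι k) *ᵥ (((P⁻¹ : GL ι k) : Matrix ι ι k) *ᵥ w) := by
      rw [h g, Matrix.mulVec_mulVec, Matrix.mulVec_mulVec, Units.val_mul, Units.val_mul,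
        ← Matrix.mul_assoc, ← Matrix.mul_assoc, hP', Matrix.one_mul]
    rw [h2]
    exact h1
  rcases hR W' hst with h0 | h0
  · left
    rw [Submodule.eq_bot_iff] at h0 ⊢
    intro x hx
    have h1 := h0 ((P : Matrix ι ι k) *ᵥ x) (by
      rw [hmem, Matrix.mulVec_mulVec, hP', Matrix.one_mulVec]
      exact hx)
    have h2 := congrArg (fun y => ((P⁻¹ : GL ι k) : Matrix ι ι k) *ᵥ y) h1
    rw [Matrix.mulVec_mulVec, hP', Matrix.one_mulVec, Matrix.mulVec_zero] at h2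
    exact h2
  · right
    rw [eq_top_iff]
    intro x _
    have h1 : (P : Matrix ι ι k) *ᵥ x ∈ W' := h0 ▸ Submodule.mem_top
    rw [hmem, Matrix.mulVec_mulVec, hP', Matrix.one_mulVec] at h1
    exact h1

theorem lft_bot (hm : 0 < m) {W : Submodule k (Fin n → k)} (h : lft m W = ⊥) : W = ⊥ := by
  rw [Submodule.eq_bot_iff] at h ⊢
  intro v hv
  have h1 := h (tv v ⟨0, hm⟩) (tv_mem.2 hv)
  funext i
  have := congrFun h1 (i, ⟨0, hm⟩)
  simpa [tv] using this

theorem lft_top (hm : 0 < m) {W : Submodule k (Fin n → k)} (h : lft m W = ⊤) : W = ⊤ := by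
  rw [eq_top_iff]
  intro v _
  have h1 : tv v (⟨0, hm⟩ : Fin m) ∈ lft m W := h ▸ Submodule.mem_top
  exact tv_mem.1 h1

/-- the tensor product with a representation which is absolutely irreducible on the kernel -/
theorem irr_krHom (hm : 0 < m) {r : G →* GL (Fin n) k} {ρ : G →* GL (Fin m) k}
    (hρ : AbsIrr (ρ.comp r.ker.subtype)) : Irred (krHom r ρ) ↔ Irred r := by
  constructor
  · intro h W hW
    rcases h (lft m W) (lft_stable ρ hW) with h0 | h0
    · exact Or.inl (lft_bot hm h0)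
    · exact Or.inr (lft_top hm h0)
  · intro h W hW
    obtain ⟨W', hW', rfl⟩ := stable_lft hm hρ hW
    rcases h W' hW' with h0 | h0
    · left
      subst h0
      rw [Submodule.eq_bot_iff]
      intro x hx
      funext ⟨i, j⟩
      exact congrFun ((Submodule.mem_bot k).1 (hx j)) i
    · right
      subst h0
      rw [eq_top_iff]
      intro x _ j
      exact Submodule.mem_top

end irr

end Pool.Agent.Q65.TD
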